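import Mathlib
import Pool.Agent.H389R2.LC.Approx

set_option autoImplicit false

/-!
Symmetric linear combinations of shifts of a bounded integer sequence and of its two-sided sums.
-/

namespace Pool.Q146.LR

open Pool.H389R2.LC Finset

/-- `V_0 = 2, V_1 = t, V_{n+2} = t V_{n+1} - V_n`, that is `V_n = ε^n + ε^{-n}`. -/
def V (t : ℤ) : ℕ → ℤ
  | 0 => 2
  | 1 => t
  | (n + 2) => t * V t (n + 1) - V t n

/-- the symmetric operator with coefficients `a` -/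
noncomputable def W (a : ℕ → ℤ) (h : ℕ) (F : ℤ → ℝ) (m : ℤ) : ℝ :=
  a 0 * F m + ∑ k ∈ range h, (a (k + 1) : ℝ) * (F (m + (k + 1)) + F (m - (k + 1)))

/-- the same on integer sequences -/
def Wi (a : ℕ → ℤ) (h : ℕ) (f : ℤ → ℤ) (m : ℤ) : ℤ :=
  a 0 * f m + ∑ k ∈ range h, a (k + 1) * (f (m + (k + 1)) + f (m - (k + 1)))

/-- the value at the unit -/
def Uc (t : ℤ) (a : ℕ → ℤ) (h : ℕ) : ℤ := a 0 + ∑ k ∈ range h, a (k + 1) * V t (k + 1)

/-- the sum of the absolute values of the coefficients -/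
def Sz (a : ℕ → ℤ) (h : ℕ) : ℝ := |(a 0 : ℝ)| + 2 * ∑ k ∈ range h, |(a (k + 1) : ℝ)|

theorem Sz_nonneg (a : ℕ → ℤ) (h : ℕ) : 0 ≤ Sz a h := by
  unfold Sz
  have : 0 ≤ ∑ k ∈ range h, |(a (k + 1) : ℝ)| := sum_nonneg (fun i _ => abs_nonneg _)
  have := abs_nonneg (a 0 : ℝ)
  linarith

theorem W_cast (a : ℕ → ℤ) (h : ℕ) (f : ℤ → ℤ) (m : ℤ) :
    W a h (fun k => (f k : ℝ)) m = (Wi a h f m : ℝ) := by
  unfold W Wi
  push_cast
  rfl

theorem W_abs (a : ℕ → ℤ) (h : ℕ) (F : ℤ → ℝ) (C : ℝ) (hF : ∀ k, |F k| ≤ C) (m : ℤ) :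
    |W a h F m| ≤ Sz a h * C := by
  have hC : 0 ≤ C := le_trans (abs_nonneg _) (hF 0)
  unfold W Sz
  have h1 : |(a 0 : ℝ) * F m| ≤ |(a 0 : ℝ)| * C := by
    rw [abs_mul]; exact mul_le_mul_of_nonneg_left (hF m) (abs_nonneg _)
  have h2 : |∑ k ∈ range h, (a (k + 1) : ℝ) * (F (m + (k + 1)) + F (m - (k + 1)))|
      ≤ ∑ k ∈ range h, |(a (k + 1) : ℝ)| * (2 * C) := by
    refine le_trans (abs_sum_le_sum_abs _ _) (sum_le_sum (fun k _ => ?_))
    rw [abs_mul]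
    apply mul_le_mul_of_nonneg_left _ (abs_nonneg _)
    have h3 := abs_add_le (F (m + (k + 1))) (F (m - (k + 1)))
    linarith [hF (m + (k + 1)), hF (m - (k + 1))]
  rw [← sum_mul] at h2
  calc |(a 0 : ℝ) * F m + ∑ k ∈ range h, (a (k + 1) : ℝ) * (F (m + (k + 1)) + F (m - (k + 1)))|
      ≤ |(a 0 : ℝ) * F m| + |∑ k ∈ range h, (a (k + 1) : ℝ) * (F (m + (k + 1)) + F (m - (k + 1)))| :=
        abs_add_le _ _
    _ ≤ |(a 0 : ℝ)| * C + (∑ k ∈ range h, |(a (k + 1) : ℝ)|) * (2 * C) := add_le_add h1 h2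
    _ = _ := by ring

theorem Wi_bdd (a : ℕ → ℤ) (h : ℕ) (f : ℤ → ℤ) (C : ℝ) (hf : ∀ k, |(f k : ℝ)| ≤ C) (m : ℤ) :
    |(Wi a h f m : ℝ)| ≤ Sz a h * C := by
  rw [← W_cast]
  exact W_abs a h _ C hf m

theorem V_UU (t : ℤ) (n : ℕ) : V t (n + 1) = U t (n + 2) - U t n := by
  induction n using Nat.twoStepInduction with
  | zero => simp [V, U]
  | one => simp [V, U]; ring
  | more n ih1 ih2 =>
    have e1 : V t (n + 2 + 1) = t * V t (n + 1 + 1) - V t (n + 1) := rfl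
    have e2 : U t (n + 2 + 2) = t * U t (n + 1 + 2) - U t (n + 2) := rfl
    have e3 : U t (n + 2) = t * U t (n + 1) - U t n := rfl
    rw [e1, ih1, ih2, e2]
    linarith [e3]

section eps
variable {ε : ℝ}

theorem gg_trans (f : ℤ → ℤ) (n j : ℤ) : gg ε (fun k => f (k + n)) j = gg ε f (j + n) := by
  have h1 : FF ε (fun k => f (k + n)) j = FF ε f (j + n) := by
    unfold FF
    apply tsum_congr
    intro i
    show (f (j + (i : ℤ) + n) : ℝ) * ε⁻¹ ^ i = (f (j + n + i) : ℝ) * ε⁻¹ ^ i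
    rw [show j + (i : ℤ) + n = j + n + i by ring]
  have h2 : PP ε (fun k => f (k + n)) j = PP ε f (j + n) := by
    unfold PP
    apply tsum_congr
    intro i
    show (f (j - 1 - (i : ℤ) + n) : ℝ) * ε⁻¹ ^ (i + 1) = (f (j + n - 1 - i) : ℝ) * ε⁻¹ ^ (i + 1)
    rw [show j - 1 - (i : ℤ) + n = j + n - 1 - i by ring]
  unfold gg
  rw [h1, h2]

theorem gg_smul (f : ℤ → ℤ) (c : ℤ) (j : ℤ) : gg ε (fun k => c * f k) j = c * gg ε f j := by
  have h1 : FF ε (fun k => c * f k) j = c * FF ε f j := by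
    unfold FF
    rw [← tsum_mul_left]
    apply tsum_congr
    intro i
    push_cast; ring
  have h2 : PP ε (fun k => c * f k) j = c * PP ε f j := by
    unfold PP
    rw [← tsum_mul_left]
    apply tsum_congr
    intro i
    push_cast; ring
  unfold gg
  rw [h1, h2]
  ring

end eps

section base
variable {t : ℤ} {ε : ℝ} (hb : Base t ε)
include hb

theorem V_binet (n : ℕ) : (V t n : ℝ) = ε ^ n + ε⁻¹ ^ n := by
  induction n using Nat.twoStepInduction with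
  | zero => simp [V]; norm_num
  | one => simp [V]; exact hb.add.symm
  | more n ih1 ih2 =>
    have e1 : V t (n + 2) = t * V t (n + 1) - V t n := rfl
    rw [e1]
    push_cast
    rw [ih1, ih2, ← hb.add]
    have h2 := hb.mul
    calc (ε + ε⁻¹) * (ε ^ (n + 1) + ε⁻¹ ^ (n + 1)) - (ε ^ n + ε⁻¹ ^ n)
        = ε ^ (n + 2) + ε⁻¹ ^ (n + 2) + (ε * ε⁻¹ - 1) * (ε⁻¹ ^ n + ε ^ n) := by ring
      _ = ε ^ (n + 2) + ε⁻¹ ^ (n + 2) := by rw [h2]; ring

theorem V_le (n : ℕ) : |(V t n : ℝ)| ≤ 2 * ε ^ n := by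
  rw [V_binet hb]
  have h1 : 0 < ε ^ n := pow_pos hb.pos _
  have h2 : 0 < ε⁻¹ ^ n := pow_pos hb.rpos _
  rw [abs_of_pos (by linarith)]
  have h3 : ε⁻¹ ^ n ≤ 1 := pow_le_one₀ hb.rpos.le hb.rlt.le
  have h4 : 1 ≤ ε ^ n := one_le_pow₀ hb.h1.le
  linarith

theorem Uc_le (a : ℕ → ℤ) (h : ℕ) : |(Uc t a h : ℝ)| ≤ Sz a h * ε ^ h := by
  unfold Uc Sz
  push_cast
  have hε := hb.pos
  have h1 : (1 : ℝ) ≤ ε ^ h := one_le_pow₀ hb.h1.le
  have h2 : |∑ k ∈ range h, (a (k + 1) : ℝ) * (V t (k + 1) : ℝ)|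
      ≤ ∑ k ∈ range h, |(a (k + 1) : ℝ)| * (2 * ε ^ h) := by
    refine le_trans (abs_sum_le_sum_abs _ _) (sum_le_sum (fun k hk => ?_))
    rw [abs_mul]
    apply mul_le_mul_of_nonneg_left _ (abs_nonneg _)
    refine le_trans (V_le hb (k + 1)) ?_
    have : ε ^ (k + 1) ≤ ε ^ h := pow_le_pow_right₀ hb.h1.le (by
      have := mem_range.mp hk
      omega)
    linarith
  rw [← sum_mul] at h2
  calc |(a 0 : ℝ) + ∑ k ∈ range h, (a (k + 1) : ℝ) * (V t (k + 1) : ℝ)|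
      ≤ |(a 0 : ℝ)| + |∑ k ∈ range h, (a (k + 1) : ℝ) * (V t (k + 1) : ℝ)| := abs_add_le _ _
    _ ≤ |(a 0 : ℝ)| * ε ^ h + (∑ k ∈ range h, |(a (k + 1) : ℝ)|) * (2 * ε ^ h) := by
        apply add_le_add _ h2
        exact le_mul_of_one_le_right (abs_nonneg _) h1
    _ = _ := by ring

theorem gg_add (f g : ℤ → ℤ) (B B' : ℝ) (hB : ∀ k, |(f k : ℝ)| ≤ B) (hB' : ∀ k, |(g k : ℝ)| ≤ B')
    (j : ℤ) : gg ε (fun k => f k + g k) j = gg ε f j + gg ε g j := by
  have h1 : FF ε (fun k => f k + g k) j = FF ε f j + FF ε g j := by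
    unfold FF
    rw [← (summable_geo hb (fun i : ℕ => f (j + i)) B (fun k => hB _)).tsum_add
      (summable_geo hb (fun i : ℕ => g (j + i)) B' (fun k => hB' _))]
    apply tsum_congr
    intro i
    push_cast; ring
  have h2 : PP ε (fun k => f k + g k) j = PP ε f j + PP ε g j := by
    unfold PP
    rw [← (summable_geo' hb (fun i : ℕ => f (j - 1 - i)) B (fun k => hB _)).tsum_add
      (summable_geo' hb (fun i : ℕ => g (j - 1 - i)) B' (fun k => hB' _))]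
    apply tsum_congr
    intro i
    push_cast; ring
  unfold gg
  rw [h1, h2]
  ring

/-- the two-sided sum of `Wi a h f` -/
theorem gg_W (f : ℤ → ℤ) (B : ℝ) (hB : ∀ k, |(f k : ℝ)| ≤ B) (a : ℕ → ℤ) (h : ℕ) (m : ℤ) :
    gg ε (Wi a h f) m = W a h (gg ε f) m := by
  induction h with
  | zero =>
    have e : Wi a 0 f = fun k => a 0 * f k := by
      funext k; simp [Wi]
    rw [e, gg_smul]
    simp [W]
  | succ h ih =>
    have e : Wi a (h + 1) f = fun k => Wi a h f k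
        + a (h + 1) * (fun k => f (k + (h + 1)) + f (k + (-((h : ℤ) + 1)))) k := by
      funext k
      simp only [Wi, sum_range_succ]
      rw [show k + (-((h : ℤ) + 1)) = k - (h + 1) by ring]
      ring
    have hb1 : ∀ k, |((fun k => f (k + (h + 1)) + f (k + (-((h : ℤ) + 1)))) k : ℝ)| ≤ 2 * B := by
      intro k
      push_cast
      have h1 := abs_add_le (f (k + (h + 1)) : ℝ) (f (k + (-((h : ℤ) + 1))) : ℝ)
      have h2 := hB (k + (h + 1))
      have h3 := hB (k + (-((h : ℤ) + 1)))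
      push_cast at h1
      linarith
    have hb2 : ∀ k, |((a (h + 1) * (fun k => f (k + (h + 1)) + f (k + (-((h : ℤ) + 1)))) k : ℤ) : ℝ)|
        ≤ |(a (h + 1) : ℝ)| * (2 * B) := by
      intro k
      rw [Int.cast_mul, abs_mul]
      exact mul_le_mul_of_nonneg_left (hb1 k) (abs_nonneg _)
    rw [e, gg_add hb _ _ _ _ (Wi_bdd a h f B hB) hb2, ih, gg_smul,
      gg_add hb (fun k => f (k + (h + 1))) (fun k => f (k + (-((h : ℤ) + 1)))) B B
        (fun k => hB _) (fun k => hB _), gg_trans, gg_trans]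
    unfold W
    rw [sum_range_succ, show m + (-((h : ℤ) + 1)) = m - (h + 1) by ring]
    ring

/-- `gg (m+k) + gg (m-k) = V_k gg m + integer` -/
theorem gg_pair (f : ℤ → ℤ) (B : ℝ) (hB : ∀ k, |(f k : ℝ)| ≤ B) (m : ℤ) (k : ℕ) :
    ∃ z : ℤ, gg ε f (m + k) + gg ε f (m - k) = V t k * gg ε f m + z := by
  induction k using Nat.twoStepInduction with
  | zero => exact ⟨0, by simp [V]; ring⟩
  | one =>
    refine ⟨-f m, ?_⟩
    have h := gg_rec hb f B hB (m - 1)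
    rw [show m - 1 + 2 = m + 1 by ring, show m - 1 + 1 = m by ring] at h
    simp only [V, Nat.cast_one]
    push_cast
    linarith
  | more k ih1 ih2 =>
    obtain ⟨z1, h1⟩ := ih1
    obtain ⟨z2, h2⟩ := ih2
    have e1 := gg_rec hb f B hB (m + k)
    have e2 := gg_rec hb f B hB (m - (k + 2))
    rw [show m - ((k : ℤ) + 2) + 2 = m - k by ring,
      show m - ((k : ℤ) + 2) + 1 = m - (k + 1) by ring] at e2
    rw [show m + (k : ℤ) + 2 = m + (k + 2) by ring,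
      show m + (k : ℤ) + 1 = m + (k + 1) by ring] at e1
    refine ⟨t * z2 - z1 - f (m + (k + 1)) - f (m - (k + 1)), ?_⟩
    have e3 : V t (k + 2) = t * V t (k + 1) - V t k := rfl
    rw [e3]
    push_cast at h2 ⊢
    linear_combination e1 + e2 + (t : ℝ) * h2 - h1

theorem W_gg_int (f : ℤ → ℤ) (B : ℝ) (hB : ∀ k, |(f k : ℝ)| ≤ B) (a : ℕ → ℤ) (h : ℕ) (m : ℤ) :
    ∃ Z : ℤ, W a h (gg ε f) m = Uc t a h * gg ε f m + Z := by
  induction h with
  | zero => exact ⟨0, by simp [W, Uc]⟩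
  | succ h ih =>
    obtain ⟨Z, hZ⟩ := ih
    obtain ⟨z, hz⟩ := gg_pair hb f B hB m (h + 1)
    refine ⟨Z + a (h + 1) * z, ?_⟩
    unfold W Uc at hZ ⊢
    rw [sum_range_succ, sum_range_succ]
    push_cast at hz hZ ⊢
    linear_combination hZ + (a (h + 1) : ℝ) * hz

end base

end Pool.Q146.LR
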