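import Mathlib
import Pool.Agent.Q146.LR.Lin

set_option autoImplicit false

/-!
A symmetric relation on a window, whose value at the unit is not zero, gives a multiplier with a
small Littlewood product.
-/

namespace Pool.Q146.LR

open Pool.H389R2.LC Finset

section base
variable {t : ℤ} {ε : ℝ} (hb : Base t ε)
include hb

theorem comb_ne (p : ℕ) (a b : ℤ) (A : ℝ) (hab : a ≠ 0 ∨ b ≠ 0) (ha : |(a : ℝ)| ≤ A)
    (hA : A < ε ^ p) : a * U t p + b * U t (p + 1) ≠ 0 := by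
  intro h0
  have hdiv : U t (p + 1) ∣ a * U t p := ⟨-b, by linarith⟩
  have hdiv2 : U t (p + 1) ∣ a := (U_coprime t p).symm.dvd_of_dvd_mul_right hdiv
  have hUp : ε ^ p ≤ (U t (p + 1) : ℝ) := hb.U_lower p
  have hεp : 0 < ε ^ p := pow_pos hb.pos p
  have hUpos : (0 : ℤ) < U t (p + 1) := by
    have : (0 : ℝ) < U t (p + 1) := by linarith
    exact_mod_cast this
  by_cases ha0 : a = 0
  · rw [ha0] at h0
    have : b = 0 := by
      rcases mul_eq_zero.mp (by linarith : b * U t (p + 1) = 0) with h | h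
      · exact h
      · omega
    rcases hab with h | h
    · exact h ha0
    · exact h this
  · have h1 : U t (p + 1) ≤ |a| := Int.le_of_dvd (abs_pos.mpr ha0) ((dvd_abs _ _).mpr hdiv2)
    have h2 : (U t (p + 1) : ℝ) ≤ ((|a| : ℤ) : ℝ) := by exact_mod_cast h1
    push_cast at h2
    linarith

theorem mid (α β : ℝ) (A0 B0 : ℤ) (c : ℕ) (hc : 0 < c) (hα : (c : ℝ) * α = A0 + B0 * ε)
    (d : ℕ → ℤ) (B : ℝ) (hB : ∀ k, |(d k : ℝ)| ≤ B)
    (hβ : β = ∑' k : ℕ, (d k : ℝ) * ε⁻¹ ^ k) :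
    ∃ C : ℝ, 0 < C ∧ ∀ (a : ℕ → ℤ) (h s R : ℕ) (T : ℝ), Uc t a h ≠ 0 → Sz a h ≤ T →
      (∀ m : ℤ, (s : ℤ) + h ≤ m → m < s + h + R → Wi a h (ext d) m = 0) →
      ε ^ 2 * T < ε ^ h * ε ^ R →
      ∃ q : ℕ, 0 < q ∧ (L α β q) ^ 2 ≤ C * T ^ 3 * ε ^ h * ε⁻¹ ^ R := by
  have hε := hb.pos
  have hr0 := hb.rpos
  have hr1 := hb.rlt
  have hm1 := hb.mul
  have hB0 : 0 ≤ B := le_trans (abs_nonneg _) (hB 0)
  have hcr : (0 : ℝ) < c := by exact_mod_cast hc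
  have h1r : 0 < 1 - ε⁻¹ := by linarith
  set C1 : ℝ := c ^ 2 * |(B0 : ℝ)| * ε * 8 * (2 * B * (1 - ε⁻¹)⁻¹ + |β|) with hC1
  have hC1nn : 0 ≤ C1 := by positivity
  refine ⟨C1 ^ 2 * ε ^ 2 + 1, by positivity, ?_⟩
  intro a h s R T hU hST hwin hTR
  have hT0 : 0 ≤ T := le_trans (Sz_nonneg a h) hST
  set m : ℕ := s + h + R / 2 with hm
  set ρ : ℕ := (R - 1) / 2 with hρ
  set f : ℤ → ℤ := ext d with hf
  have hfB : ∀ k, |(f k : ℝ)| ≤ B := ext_bdd d B hB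
  set e : ℤ → ℤ := Wi a h f with he
  have heB : ∀ k, |(e k : ℝ)| ≤ T * B := fun k =>
    le_trans (Wi_bdd a h f B hfB k) (mul_le_mul_of_nonneg_right hST hB0)
  set E : ℝ := 2 * (T * B) * (1 - ε⁻¹)⁻¹ * ε⁻¹ ^ ρ with hE
  have hE0 : 0 ≤ E := by positivity
  have hG1 : |gg ε e m| ≤ E := by
    apply gg_small hb e (T * B) heB
    intro k h1 h2
    exact hwin k (by omega) (by omega)
  have hG2 : |gg ε e (m + 1)| ≤ E := by
    apply gg_small hb e (T * B) heB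
    intro k h1 h2
    exact hwin k (by omega) (by omega)
  obtain ⟨Z1, hZ1⟩ := W_gg_int hb f B hfB a h m
  obtain ⟨Z2, hZ2⟩ := W_gg_int hb f B hfB a h (m + 1)
  rw [← gg_W hb f B hfB] at hZ1 hZ2
  set u : ℤ := Uc t a h with hu
  obtain ⟨sg, hsg, hM⟩ : ∃ sg : ℤ, (sg = 1 ∨ sg = -1) ∧ ((u.natAbs : ℕ) : ℤ) = sg * u := by
    rcases abs_choice u with h | h
    · exact ⟨1, Or.inl rfl, by rw [Int.natCast_natAbs, h]; ring⟩
    · exact ⟨-1, Or.inr rfl, by rw [Int.natCast_natAbs, h]; ring⟩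
  have hsg1 : |(sg : ℝ)| = 1 := by rcases hsg with h | h <;> rw [h] <;> simp
  set M : ℕ := u.natAbs with hMdef
  have hM0 : 0 < M := Int.natAbs_pos.mpr hU
  have hMr0 : (0 : ℝ) < M := by exact_mod_cast hM0
  have hMr : (M : ℝ) = sg * u := by
    have : (((M : ℕ) : ℤ) : ℝ) = ((sg * u : ℤ) : ℝ) := by rw [hM]
    push_cast at this
    exact this
  have hMT : (M : ℝ) ≤ T * ε ^ h := by
    have h1 := Uc_le hb a h
    have h2 : (M : ℝ) = |(u : ℝ)| := by rw [hMdef, Nat.cast_natAbs]; push_cast; rfl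
    rw [h2]
    exact le_trans h1 (mul_le_mul_of_nonneg_right hST (pow_pos hε _).le)
  obtain ⟨a', b', hab, ha', hb', z, hz⟩ := pigeon M hM0 (-sg * Z1) (-sg * Z2)
  set A : ℕ := Nat.sqrt M with hA
  have hA2 : (A : ℝ) ^ 2 ≤ M := by exact_mod_cast Nat.sqrt_le' M
  have hA0 : (0 : ℝ) ≤ A := Nat.cast_nonneg _
  have haA : |(a' : ℝ)| ≤ A := by
    have : ((|a'| : ℤ) : ℝ) ≤ ((A : ℤ) : ℝ) := by exact_mod_cast ha'
    simpa using this
  have hbA : |(b' : ℝ)| ≤ A := by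
    have : ((|b'| : ℤ) : ℝ) ≤ ((A : ℤ) : ℝ) := by exact_mod_cast hb'
    simpa using this
  -- nonvanishing
  have hAm : (A : ℝ) < ε ^ m := by
    apply lt_of_pow_lt_pow_left₀ 2 (pow_pos hε _).le
    have h1 : ε ^ 2 * (T * ε ^ h) < ε ^ 2 * (ε ^ m) ^ 2 := by
      calc ε ^ 2 * (T * ε ^ h) = (ε ^ 2 * T) * ε ^ h := by ring
        _ < (ε ^ h * ε ^ R) * ε ^ h := mul_lt_mul_of_pos_right hTR (pow_pos hε _)
        _ = ε ^ (2 * h + R) := by ring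
        _ ≤ ε ^ (2 + 2 * m) := pow_le_pow_right₀ hb.h1.le (by omega)
        _ = _ := by ring
    have h2 : T * ε ^ h < (ε ^ m) ^ 2 := lt_of_mul_lt_mul_left h1 (by positivity)
    linarith
  have hne := comb_ne hb m a' b' A hab haA hAm
  -- closeness
  have hκ : |(a' : ℝ) * gg ε f m + b' * gg ε f (m + 1) - z| ≤ 2 * A * E / M := by
    rw [le_div_iff₀ hMr0]
    have hzr : (a' : ℝ) * (-sg * Z1) + b' * (-sg * Z2) = M * z := by
      have : ((a' * (-sg * Z1) + b' * (-sg * Z2) : ℤ) : ℝ) = (((M : ℤ) * z : ℤ) : ℝ) := by rw [hz]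
      push_cast at this
      linarith
    have e1 : ((a' : ℝ) * gg ε f m + b' * gg ε f (m + 1) - z) * M
        = sg * (a' * gg ε e m + b' * gg ε e (m + 1)) := by
      rw [hZ1, hZ2]
      have : ((a' : ℝ) * gg ε f m + b' * gg ε f (m + 1) - z) * M
        = (a' * gg ε f m + b' * gg ε f (m + 1)) * M - M * z := by ring
      rw [this, ← hzr, hMr]
      ring
    have e2 : |(a' : ℝ) * gg ε f m + b' * gg ε f (m + 1) - z| * M
        = |((a' : ℝ) * gg ε f m + b' * gg ε f (m + 1) - z) * M| := by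
      rw [abs_mul, abs_of_pos hMr0]
    rw [e2, e1, abs_mul, hsg1, one_mul]
    calc |(a' : ℝ) * gg ε e m + b' * gg ε e (m + 1)|
        ≤ |(a' : ℝ)| * |gg ε e m| + |(b' : ℝ)| * |gg ε e (m + 1)| := by
          rw [← abs_mul, ← abs_mul]; exact abs_add_le _ _
      _ ≤ A * E + A * E := by
          apply add_le_add
          · exact mul_le_mul haA hG1 (abs_nonneg _) hA0
          · exact mul_le_mul hbA hG2 (abs_nonneg _) hA0
      _ = 2 * A * E := by ring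
  obtain ⟨q, hq0, -, hqL⟩ := key hb α β A0 B0 c hc hα d B hB hβ m a' b' hne (2 * A)
    (by linarith) _ z hκ
  refine ⟨q, hq0, ?_⟩
  have hL0 := L_nonneg α β q
  have hL1 : L α β q ≤ C1 * A * T * ε⁻¹ ^ ρ := by
    have hx : (A : ℝ) ^ 2 * (2 * A * E / M) ≤ 2 * A * E := by
      have h1 : (A : ℝ) ^ 2 * (2 * A * E / M) = (A : ℝ) ^ 2 * (2 * A * E) / M := by ring
      rw [h1, div_le_iff₀ hMr0]
      have h2 : 0 ≤ 2 * A * E := by positivity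
      calc (A : ℝ) ^ 2 * (2 * A * E) ≤ M * (2 * A * E) := mul_le_mul_of_nonneg_right hA2 h2
        _ = _ := by ring
    have hy : (A : ℝ) ^ 2 * (2 * A * ε⁻¹ ^ m * |β|) ≤ 2 * A * (T * ε⁻¹ ^ ρ) * |β| := by
      have h1 : (A : ℝ) ^ 2 * ε⁻¹ ^ m ≤ T * ε⁻¹ ^ ρ := by
        calc (A : ℝ) ^ 2 * ε⁻¹ ^ m ≤ (T * ε ^ h) * ε⁻¹ ^ m :=
              mul_le_mul_of_nonneg_right (le_trans hA2 hMT) (pow_pos hr0 _).le
          _ ≤ (T * ε ^ h) * ε⁻¹ ^ (h + ρ) := by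
              apply mul_le_mul_of_nonneg_left _ (by positivity)
              exact pow_le_pow_of_le_one hr0.le hr1.le (by omega)
          _ = T * ((ε * ε⁻¹) ^ h * ε⁻¹ ^ ρ) := by ring
          _ = T * ε⁻¹ ^ ρ := by rw [hm1, one_pow, one_mul]
      have h2 : 0 ≤ 2 * A * |β| := by positivity
      calc (A : ℝ) ^ 2 * (2 * A * ε⁻¹ ^ m * |β|) = ((A : ℝ) ^ 2 * ε⁻¹ ^ m) * (2 * A * |β|) := by ring
        _ ≤ (T * ε⁻¹ ^ ρ) * (2 * A * |β|) := mul_le_mul_of_nonneg_right h1 h2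
        _ = _ := by ring
    calc L α β q ≤ c ^ 2 * |(B0 : ℝ)| * ε * (2 * (A : ℝ)) ^ 2 * (2 * A * E / M + (2 * A) * ε⁻¹ ^ m * |β|) := hqL
      _ = c ^ 2 * |(B0 : ℝ)| * ε * 4 * ((A : ℝ) ^ 2 * (2 * A * E / M) + (A : ℝ) ^ 2 * (2 * A * ε⁻¹ ^ m * |β|)) := by
          ring
      _ ≤ c ^ 2 * |(B0 : ℝ)| * ε * 4 * (2 * A * E + 2 * A * (T * ε⁻¹ ^ ρ) * |β|) := by
          apply mul_le_mul_of_nonneg_left (add_le_add hx hy) (by positivity)
      _ = C1 * A * T * ε⁻¹ ^ ρ := by rw [hE, hC1]; ring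
  have hr4 : (ε⁻¹ ^ ρ) ^ 2 ≤ ε ^ 2 * ε⁻¹ ^ R := by
    have h1 : ε⁻¹ ^ (2 * ρ + 2) ≤ ε⁻¹ ^ R := pow_le_pow_of_le_one hr0.le hr1.le (by omega)
    have h2 : ε ^ 2 * ε⁻¹ ^ (2 * ρ + 2) = (ε⁻¹ ^ ρ) ^ 2 := by
      calc ε ^ 2 * ε⁻¹ ^ (2 * ρ + 2) = (ε * ε⁻¹) ^ 2 * (ε⁻¹ ^ ρ) ^ 2 := by ring
        _ = _ := by rw [hm1, one_pow, one_mul]
    rw [← h2]
    exact mul_le_mul_of_nonneg_left h1 (by positivity)
  calc (L α β q) ^ 2 ≤ (C1 * A * T * ε⁻¹ ^ ρ) ^ 2 := pow_le_pow_left₀ hL0 hL1 2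
    _ = C1 ^ 2 * T ^ 2 * ((A : ℝ) ^ 2 * (ε⁻¹ ^ ρ) ^ 2) := by ring
    _ ≤ C1 ^ 2 * T ^ 2 * ((T * ε ^ h) * (ε ^ 2 * ε⁻¹ ^ R)) := by
        apply mul_le_mul_of_nonneg_left _ (by positivity)
        exact mul_le_mul (le_trans hA2 hMT) hr4 (by positivity) (by positivity)
    _ = C1 ^ 2 * ε ^ 2 * (T ^ 3 * ε ^ h * ε⁻¹ ^ R) := by ring
    _ ≤ (C1 ^ 2 * ε ^ 2 + 1) * (T ^ 3 * ε ^ h * ε⁻¹ ^ R) := by
        apply mul_le_mul_of_nonneg_right _ (by positivity)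
        linarith
    _ = _ := by ring

end base

end Pool.Q146.LR
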