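import Mathlib
import Pool.Agent.Q146.LR.Mid

set_option autoImplicit false

/-!
Division by `x + x⁻¹ - t` when the value at the unit is zero, and the statement for symmetric
relations.
-/

namespace Pool.Q146.LR

open Pool.H389R2.LC Finset

/-- the quotient of `a` by `x + x⁻¹ - t` -/
def Qt (t : ℤ) (a : ℕ → ℤ) (h : ℕ) (k : ℕ) : ℤ := ∑ i ∈ range h, a (i + 1) * U t (i + 1 - k)

theorem Qt_zero (t : ℤ) (a : ℕ → ℤ) (h k : ℕ) (hk : h ≤ k) : Qt t a h k = 0 := by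
  unfold Qt
  apply sum_eq_zero
  intro i hi
  have := mem_range.mp hi
  rw [show i + 1 - k = 0 by omega, U_zero, mul_zero]

theorem Qt_rec (t : ℤ) (a : ℕ → ℤ) (h k : ℕ) (hk : k < h) :
    Qt t a h k + Qt t a h (k + 2) - t * Qt t a h (k + 1) = a (k + 1) := by
  unfold Qt
  rw [mul_sum, ← sum_add_distrib, ← sum_sub_distrib, sum_eq_single k]
  · rw [show k + 1 - k = 1 by omega, show k + 1 - (k + 2) = 0 by omega,
      show k + 1 - (k + 1) = 0 by omega, U_zero, U_one]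
    ring
  · intro i hi hik
    rcases Nat.lt_or_gt_of_ne hik with h1 | h1
    · rw [show i + 1 - k = 0 by omega, show i + 1 - (k + 2) = 0 by omega,
        show i + 1 - (k + 1) = 0 by omega, U_zero]
      ring
    · obtain ⟨n, rfl⟩ : ∃ n, i = k + 1 + n := ⟨i - (k + 1), by omega⟩
      rw [show k + 1 + n + 1 - k = n + 2 by omega, show k + 1 + n + 1 - (k + 2) = n by omega,
        show k + 1 + n + 1 - (k + 1) = n + 1 by omega, U_succ2]
      ring
  · intro h1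
    exact absurd (mem_range.mpr hk) h1

theorem Qt_center (t : ℤ) (a : ℕ → ℤ) (h : ℕ) :
    2 * Qt t a h 1 - t * Qt t a h 0 = a 0 - Uc t a h := by
  unfold Qt Uc
  rw [mul_sum, mul_sum, ← sum_sub_distrib]
  have : ∑ i ∈ range h, (2 * (a (i + 1) * U t (i + 1 - 1)) - t * (a (i + 1) * U t (i + 1 - 0)))
      = - ∑ k ∈ range h, a (k + 1) * V t (k + 1) := by
    rw [← sum_neg_distrib]
    apply sum_congr rfl
    intro i _
    rw [V_UU, show i + 1 - 1 = i by omega, show i + 1 - 0 = i + 1 by omega, U_succ2]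
    ring
  rw [this]
  ring

/-- summation by parts -/
theorem parts (b p : ℕ → ℤ) (N : ℕ) :
    b 0 * p 1 + ∑ k ∈ range N, b (k + 1) * (p (k + 2) + p k)
      = b 1 * p 0 + ∑ k ∈ range N, (b k + b (k + 2)) * p (k + 1) + b N * p (N + 1)
        - b (N + 1) * p N := by
  induction N with
  | zero => simp
  | succ N ih =>
    rw [sum_range_succ, sum_range_succ, ← add_assoc, ih]
    ring

theorem Wi_Qt (t : ℤ) (a : ℕ → ℤ) (h : ℕ) (h0 : Uc t a h = 0) (f : ℤ → ℤ) (m : ℤ) :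
    Wi a h f m = Wi (Qt t a h) h f (m + 1) + Wi (Qt t a h) h f (m - 1)
      - t * Wi (Qt t a h) h f m := by
  set b := Qt t a h with hbdef
  have hb0 : b h = 0 := Qt_zero t a h h le_rfl
  have hb1 : b (h + 1) = 0 := Qt_zero t a h (h + 1) (by omega)
  have hc := Qt_center t a h
  rw [h0, sub_zero, ← hbdef] at hc
  have hP := parts b (fun k => f (m + k) + f (m - k)) h
  rw [hb0, hb1] at hP
  simp only [zero_mul, add_zero, sub_zero] at hP
  have e1 : Wi b h f (m + 1) + Wi b h f (m - 1)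
      = b 0 * (f (m + (1 : ℕ)) + f (m - (1 : ℕ)))
        + ∑ k ∈ range h, b (k + 1) * ((f (m + ((k + 2 : ℕ) : ℤ)) + f (m - ((k + 2 : ℕ) : ℤ)))
          + (f (m + (k : ℤ)) + f (m - (k : ℤ)))) := by
    unfold Wi
    have : ∑ k ∈ range h, b (k + 1) * ((f (m + ((k + 2 : ℕ) : ℤ)) + f (m - ((k + 2 : ℕ) : ℤ)))
          + (f (m + (k : ℤ)) + f (m - (k : ℤ))))
        = ∑ k ∈ range h, b (k + 1) * (f (m + 1 + (k + 1)) + f (m + 1 - (k + 1)))
          + ∑ k ∈ range h, b (k + 1) * (f (m - 1 + (k + 1)) + f (m - 1 - (k + 1))) := by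
      rw [← sum_add_distrib]
      apply sum_congr rfl
      intro k _
      rw [show m + ((k + 2 : ℕ) : ℤ) = m + 1 + (k + 1) by push_cast; ring,
        show m - ((k + 2 : ℕ) : ℤ) = m - 1 - (k + 1) by push_cast; ring,
        show m + (k : ℤ) = m - 1 + (k + 1) by ring,
        show m - (k : ℤ) = m + 1 - (k + 1) by ring]
      ring
    rw [this]
    push_cast
    ring
  rw [e1, hP]
  unfold Wi
  rw [← hc]
  have e2 : ∑ k ∈ range h, a (k + 1) * (f (m + (k + 1)) + f (m - (k + 1)))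
      = ∑ k ∈ range h, (b k + b (k + 2)) * (f (m + ((k + 1 : ℕ) : ℤ)) + f (m - ((k + 1 : ℕ) : ℤ)))
        - ∑ k ∈ range h, t * (b (k + 1) * (f (m + (k + 1)) + f (m - (k + 1)))) := by
    rw [← sum_sub_distrib]
    apply sum_congr rfl
    intro k hk
    have h1 := Qt_rec t a h k (mem_range.mp hk)
    rw [← hbdef] at h1
    rw [← h1]
    push_cast
    ring
  have e3 : t * (b 0 * f m + ∑ k ∈ range h, b (k + 1) * (f (m + (k + 1)) + f (m - (k + 1))))
      = t * (b 0 * f m)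
        + ∑ k ∈ range h, t * (b (k + 1) * (f (m + (k + 1)) + f (m - (k + 1)))) := by
    rw [mul_add, mul_sum]
  rw [e2, e3]
  push_cast
  simp only [add_zero, sub_zero]
  ring

theorem Sz_Qt (t : ℤ) (ht : 3 ≤ t) (a : ℕ → ℤ) (h : ℕ) (h0 : Uc t a h = 0) :
    Sz (Qt t a h) h ≤ Sz a h := by
  set b := Qt t a h with hbdef
  have hb0 : b h = 0 := Qt_zero t a h h le_rfl
  have hb1 : b (h + 1) = 0 := Qt_zero t a h (h + 1) (by omega)
  have hc := Qt_center t a h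
  rw [h0, sub_zero, ← hbdef] at hc
  have htr : (3 : ℝ) ≤ t := by exact_mod_cast ht
  have h1 : (t : ℝ) * |(b 0 : ℝ)| ≤ |(a 0 : ℝ)| + 2 * |(b 1 : ℝ)| := by
    have e : (t : ℝ) * b 0 = 2 * b 1 - a 0 := by
      have : ((2 * b 1 - t * b 0 : ℤ) : ℝ) = a 0 := by rw [hc]
      push_cast at this
      linarith
    calc (t : ℝ) * |(b 0 : ℝ)| = |(t : ℝ) * b 0| := by rw [abs_mul, abs_of_nonneg (by linarith : (0:ℝ) ≤ t)]
      _ = |2 * (b 1 : ℝ) - a 0| := by rw [e]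
      _ ≤ |2 * (b 1 : ℝ)| + |(a 0 : ℝ)| := abs_sub _ _
      _ = _ := by rw [abs_mul]; norm_num; ring
  have h2 : ∀ k ∈ range h, (t : ℝ) * |(b (k + 1) : ℝ)|
      ≤ |(a (k + 1) : ℝ)| + |(b k : ℝ)| + |(b (k + 2) : ℝ)| := by
    intro k hk
    have h3 := Qt_rec t a h k (mem_range.mp hk)
    rw [← hbdef] at h3
    have e : (t : ℝ) * b (k + 1) = b k + b (k + 2) - a (k + 1) := by
      have : ((b k + b (k + 2) - t * b (k + 1) : ℤ) : ℝ) = a (k + 1) := by rw [h3]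
      push_cast at this
      linarith
    calc (t : ℝ) * |(b (k + 1) : ℝ)| = |(t : ℝ) * b (k + 1)| := by
          rw [abs_mul, abs_of_nonneg (by linarith : (0:ℝ) ≤ t)]
      _ = |(b k : ℝ) + b (k + 2) - a (k + 1)| := by rw [e]
      _ ≤ |(b k : ℝ) + b (k + 2)| + |(a (k + 1) : ℝ)| := abs_sub _ _
      _ ≤ (|(b k : ℝ)| + |(b (k + 2) : ℝ)|) + |(a (k + 1) : ℝ)| := by
          have := abs_add_le (b k : ℝ) (b (k + 2) : ℝ)
          linarith
      _ = _ := by ring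
  have h3 := sum_le_sum h2
  rw [← mul_sum, sum_add_distrib, sum_add_distrib] at h3
  have s1 : ∑ k ∈ range h, |(b k : ℝ)| = ∑ k ∈ range h, |(b (k + 1) : ℝ)| + |(b 0 : ℝ)| := by
    have e1 := sum_range_succ (fun k => |(b k : ℝ)|) h
    have e2 := sum_range_succ' (fun k => |(b k : ℝ)|) h
    rw [hb0] at e1
    simp only [Int.cast_zero, abs_zero, add_zero] at e1
    linarith
  have s2 : ∑ k ∈ range h, |(b (k + 2) : ℝ)| = ∑ k ∈ range h, |(b (k + 1) : ℝ)| - |(b 1 : ℝ)| := by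
    have e1 := sum_range_succ (fun k => |(b (k + 1) : ℝ)|) h
    have e2 := sum_range_succ' (fun k => |(b (k + 1) : ℝ)|) h
    rw [hb1] at e1
    simp only [Int.cast_zero, abs_zero, add_zero, zero_add] at e1 e2
    have e3 : ∑ k ∈ range h, |(b (k + 1 + 1) : ℝ)| = ∑ k ∈ range h, |(b (k + 2) : ℝ)| := rfl
    rw [e3] at e2
    linarith
  rw [s1, s2] at h3
  have hX : 0 ≤ ∑ k ∈ range h, |(b (k + 1) : ℝ)| := sum_nonneg (fun i _ => abs_nonneg _)
  have hY := abs_nonneg (b 0 : ℝ)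
  unfold Sz
  have e : (t : ℝ) * (|(b 0 : ℝ)| + 2 * ∑ k ∈ range h, |(b (k + 1) : ℝ)|)
      ≤ (|(a 0 : ℝ)| + 2 * ∑ k ∈ range h, |(a (k + 1) : ℝ)|)
        + 2 * (|(b 0 : ℝ)| + 2 * ∑ k ∈ range h, |(b (k + 1) : ℝ)|) := by
    linarith
  have h4 : 0 ≤ |(b 0 : ℝ)| + 2 * ∑ k ∈ range h, |(b (k + 1) : ℝ)| := by positivity
  nlinarith

theorem Qt_ne (t : ℤ) (a : ℕ → ℤ) (h : ℕ) (h0 : Uc t a h = 0) (hne : ∃ k, k ≤ h ∧ a k ≠ 0) :
    ∃ k, k < h ∧ Qt t a h k ≠ 0 := by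
  by_contra hcon
  push Not at hcon
  have hz : ∀ k, Qt t a h k = 0 := by
    intro k
    rcases Nat.lt_or_ge k h with h1 | h1
    · exact hcon k h1
    · exact Qt_zero t a h k h1
  obtain ⟨k, hk, hak⟩ := hne
  rcases Nat.eq_zero_or_pos k with rfl | hk0
  · have := Qt_center t a h
    rw [hz, hz, h0] at this
    omega
  · obtain ⟨j, rfl⟩ : ∃ j, k = j + 1 := ⟨k - 1, by omega⟩
    have := Qt_rec t a h j (by omega)
    rw [hz, hz, hz] at this
    omega

theorem Wi_succ (a : ℕ → ℤ) (h : ℕ) (h0 : a (h + 1) = 0) (f : ℤ → ℤ) :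
    Wi a (h + 1) f = Wi a h f := by
  funext m
  unfold Wi
  rw [sum_range_succ, h0, zero_mul, add_zero]

theorem Sz_succ (a : ℕ → ℤ) (h : ℕ) (h0 : a (h + 1) = 0) : Sz a (h + 1) = Sz a h := by
  unfold Sz
  rw [sum_range_succ, h0]
  simp

theorem one_le_Sz (a : ℕ → ℤ) (h : ℕ) (hne : ∃ k, k ≤ h ∧ a k ≠ 0) : 1 ≤ Sz a h := by
  obtain ⟨k, hk, hak⟩ := hne
  have h1 : (1 : ℝ) ≤ |(a k : ℝ)| := by
    have : (1 : ℤ) ≤ |a k| := Int.one_le_abs hak
    exact_mod_cast this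
  have hX : 0 ≤ ∑ k ∈ range h, |(a (k + 1) : ℝ)| := sum_nonneg (fun i _ => abs_nonneg _)
  unfold Sz
  rcases Nat.eq_zero_or_pos k with rfl | hk0
  · linarith
  · obtain ⟨j, rfl⟩ : ∃ j, k = j + 1 := ⟨k - 1, by omega⟩
    have h2 : |(a (j + 1) : ℝ)| ≤ ∑ k ∈ range h, |(a (k + 1) : ℝ)| :=
      single_le_sum (f := fun k => |(a (k + 1) : ℝ)|) (fun i _ => abs_nonneg _)
        (mem_range.mpr (by omega))
    have := abs_nonneg (a 0 : ℝ)
    linarith

section base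
variable {t : ℤ} {ε : ℝ} (hb : Base t ε)
include hb

/-- if the value at the unit is zero, the two-sided sum is minus the quotient relation -/
theorem gg_Qt (f : ℤ → ℤ) (B : ℝ) (hB : ∀ k, |(f k : ℝ)| ≤ B) (a : ℕ → ℤ) (h : ℕ)
    (h0 : Uc t a h = 0) (m : ℤ) : gg ε (Wi a h f) m = -(Wi (Qt t a h) h f m : ℝ) := by
  set e := Wi (Qt t a h) h f with he
  have heB := Wi_bdd (Qt t a h) h f B hB
  rw [← he] at heB
  have e1 : Wi a h f = fun k => (fun k => e (k + 1) + e (k + (-1))) k + (-t) * e k := by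
    funext k
    rw [Wi_Qt t a h h0, ← he]
    show _ = e (k + 1) + e (k + (-1)) + (-t) * e k
    rw [show k + (-1) = k - 1 by ring]
    ring
  have hb1 : ∀ k, |((fun k => e (k + 1) + e (k + (-1))) k : ℝ)| ≤ 2 * (Sz (Qt t a h) h * B) := by
    intro k
    push_cast
    have h1 := abs_add_le (e (k + 1) : ℝ) (e (k + (-1)) : ℝ)
    have h2 := heB (k + 1)
    have h3 := heB (k + (-1))
    linarith
  have hb2 : ∀ k, |(((-t) * e k : ℤ) : ℝ)| ≤ |((-t : ℤ) : ℝ)| * (Sz (Qt t a h) h * B) := by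
    intro k
    rw [Int.cast_mul, abs_mul]
    exact mul_le_mul_of_nonneg_left (heB k) (abs_nonneg _)
  rw [e1, gg_add hb _ _ _ _ hb1 hb2, gg_smul,
    gg_add hb (fun k => e (k + 1)) (fun k => e (k + (-1))) _ _ (fun k => heB _) (fun k => heB _),
    gg_trans, gg_trans]
  have h3 := gg_rec hb e _ heB (m - 1)
  rw [show m - 1 + 2 = m + 1 by ring, show m - 1 + 1 = m by ring] at h3
  rw [show m + (-1) = m - 1 by ring, h3]
  push_cast
  ring

/-- the relation given by the quotient holds on the window -/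
theorem Qt_window (f : ℤ → ℤ) (B : ℝ) (hB : ∀ k, |(f k : ℝ)| ≤ B) (a : ℕ → ℤ) (h : ℕ)
    (h0 : Uc t a h = 0) (T : ℝ) (hT : Sz a h ≤ T) (s R : ℕ) (hR : 1 ≤ R)
    (hwin : ∀ m : ℤ, (s : ℤ) + h ≤ m → m < s + h + R → Wi a h f m = 0)
    (hsmall : 2 * (T * B) * (1 - ε⁻¹)⁻¹ * ε⁻¹ ^ ((R - 1) / 2) < 1) :
    ∀ m : ℤ, (s : ℤ) + h - 1 ≤ m → m < s + h + R + 1 → Wi (Qt t a h) h f m = 0 := by
  have hB0 : 0 ≤ B := le_trans (abs_nonneg _) (hB 0)
  set ρ : ℕ := (R - 1) / 2 with hρ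
  set e := Wi a h f with he
  set e' := Wi (Qt t a h) h f with he'
  have heB : ∀ k, |(e k : ℝ)| ≤ T * B := fun k =>
    le_trans (Wi_bdd a h f B hB k) (mul_le_mul_of_nonneg_right hT hB0)
  have hrec : ∀ m : ℤ, e m = e' (m + 1) + e' (m - 1) - t * e' m := fun m =>
    Wi_Qt t a h h0 f m
  set m0 : ℤ := s + h + (R / 2 : ℕ) with hm0
  have hz : ∀ m : ℤ, |gg ε e m| < 1 → e' m = 0 := by
    intro m hm
    rw [he, gg_Qt hb f B hB a h h0 m, abs_neg, ← he'] at hm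
    have : |e' m| < 1 := by exact_mod_cast hm
    exact Int.abs_lt_one_iff.mp this
  have hz1 : e' m0 = 0 := by
    apply hz
    refine lt_of_le_of_lt (gg_small hb e (T * B) heB m0 ρ ?_) hsmall
    intro k h1 h2
    exact hwin k (by omega) (by omega)
  have hz2 : e' (m0 + 1) = 0 := by
    apply hz
    refine lt_of_le_of_lt (gg_small hb e (T * B) heB (m0 + 1) ρ ?_) hsmall
    intro k h1 h2
    exact hwin k (by omega) (by omega)
  have fwd : ∀ n : ℕ, m0 + n + 1 ≤ s + h + R → e' (m0 + n) = 0 ∧ e' (m0 + n + 1) = 0 := by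
    intro n
    induction n with
    | zero =>
      intro _
      simp only [Nat.cast_zero, add_zero]
      exact ⟨hz1, hz2⟩
    | succ n ih =>
      intro hn
      push_cast at hn
      obtain ⟨h1, h2⟩ := ih (by omega)
      have h3 := hrec (m0 + n + 1)
      have h4 : e (m0 + n + 1) = 0 := hwin _ (by omega) (by omega)
      rw [h4, show m0 + (n : ℤ) + 1 - 1 = m0 + n by ring, h1, h2] at h3
      push_cast
      refine ⟨by rw [← add_assoc]; exact h2, ?_⟩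
      rw [← add_assoc]
      omega
  have bwd : ∀ n : ℕ, s + h - 1 ≤ m0 - n → e' (m0 - n) = 0 ∧ e' (m0 - n + 1) = 0 := by
    intro n
    induction n with
    | zero =>
      intro _
      simp only [Nat.cast_zero, sub_zero]
      exact ⟨hz1, hz2⟩
    | succ n ih =>
      intro hn
      push_cast at hn
      obtain ⟨h1, h2⟩ := ih (by omega)
      have h3 := hrec (m0 - n)
      have h4 : e (m0 - n) = 0 := hwin _ (by omega) (by omega)
      rw [h4, h1, h2] at h3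
      push_cast
      refine ⟨?_, ?_⟩
      · rw [show m0 - ((n : ℤ) + 1) = m0 - n - 1 by ring]
        omega
      · rw [show m0 - ((n : ℤ) + 1) + 1 = m0 - n by ring]
        exact h1
  intro m h1 h2
  rcases le_or_gt m0 m with h3 | h3
  · rcases eq_or_lt_of_le h3 with h4 | h4
    · rw [← h4]; exact hz1
    · have := (fwd (m - m0 - 1).toNat (by omega)).2
      rwa [show m0 + ((m - m0 - 1).toNat : ℤ) + 1 = m by omega] at this
  · have := (bwd (m0 - m).toNat (by omega)).1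
    rwa [show m0 - ((m0 - m).toNat : ℤ) = m by omega] at this

theorem sym_LC (α β : ℝ) (A0 B0 : ℤ) (c : ℕ) (hc : 0 < c) (hα : (c : ℝ) * α = A0 + B0 * ε)
    (d : ℕ → ℤ) (B : ℝ) (hB : ∀ k, |(d k : ℝ)| ≤ B)
    (hβ : β = ∑' k : ℕ, (d k : ℝ) * ε⁻¹ ^ k) (η : ℝ) (hη : 0 < η) :
    ∃ K : ℝ, 0 < K ∧ ∀ (h : ℕ) (a : ℕ → ℤ) (s R : ℕ) (T : ℝ), (∃ k, k ≤ h ∧ a k ≠ 0) →
      Sz a h ≤ T →
      (∀ m : ℤ, (s : ℤ) + h ≤ m → m < s + h + R → Wi a h (ext d) m = 0) →
      K * T ^ 3 * ε ^ h ≤ ε ^ R → ∃ q : ℕ, 0 < q ∧ L α β q < η := by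
  obtain ⟨C, hC0, hC⟩ := mid hb α β A0 B0 c hc hα d B hB hβ
  have hε := hb.pos
  have hr0 := hb.rpos
  have hr1 := hb.rlt
  have hm1 := hb.mul
  have hB0 : 0 ≤ B := le_trans (abs_nonneg _) (hB 0)
  have h1r : 0 < 1 - ε⁻¹ := by linarith
  set Y : ℝ := 2 * B * (1 - ε⁻¹)⁻¹ with hY
  have hY0 : 0 ≤ Y := by positivity
  set K : ℝ := C / η ^ 2 + ε ^ 2 + Y ^ 2 * ε ^ 2 + 1 with hK
  have hK0 : 0 < K := by positivity
  refine ⟨K, hK0, ?_⟩
  intro h
  induction h with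
  | zero =>
    intro a s R T hne hT hwin hKR
    have hT1 : 1 ≤ T := le_trans (one_le_Sz a 0 hne) hT
    obtain ⟨k, hk, hak⟩ := hne
    have hk0 : k = 0 := by omega
    subst hk0
    have hU : Uc t a 0 ≠ 0 := by simpa [Uc] using hak
    have hεR : 0 < ε ^ R := pow_pos hε _
    have hTR : ε ^ 2 * T < ε ^ 0 * ε ^ R := by
      have h1 : T ≤ T ^ 3 := le_self_pow₀ hT1 (by norm_num)
      have h2 : ε ^ 2 * T < K * T ^ 3 * ε ^ 0 := by
        have h3 : ε ^ 2 < K := by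
          have : 0 ≤ C / η ^ 2 + Y ^ 2 * ε ^ 2 := by positivity
          linarith
        rw [pow_zero, mul_one]
        calc ε ^ 2 * T < K * T := mul_lt_mul_of_pos_right h3 (by linarith)
          _ ≤ K * T ^ 3 := mul_le_mul_of_nonneg_left h1 hK0.le
      rw [pow_zero, one_mul]
      linarith
    obtain ⟨q, hq, hL⟩ := hC a 0 s R T hU hT hwin hTR
    refine ⟨q, hq, ?_⟩
    apply lt_of_pow_lt_pow_left₀ 2 hη.le
    refine lt_of_le_of_lt hL ?_
    have h1 : T ^ 3 * ε ^ 0 * ε⁻¹ ^ R ≤ 1 / K := by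
      rw [le_div_iff₀ hK0]
      calc T ^ 3 * ε ^ 0 * ε⁻¹ ^ R * K = (K * T ^ 3 * ε ^ 0) * ε⁻¹ ^ R := by ring
        _ ≤ ε ^ R * ε⁻¹ ^ R := mul_le_mul_of_nonneg_right hKR (pow_pos hr0 _).le
        _ = 1 := by rw [← mul_pow, hm1, one_pow]
    calc C * T ^ 3 * ε ^ 0 * ε⁻¹ ^ R = C * (T ^ 3 * ε ^ 0 * ε⁻¹ ^ R) := by ring
      _ ≤ C * (1 / K) := mul_le_mul_of_nonneg_left h1 hC0.le
      _ < η ^ 2 := by
          rw [mul_one_div, div_lt_iff₀ hK0]
          have h3 : C = η ^ 2 * (C / η ^ 2) := by field_simp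
          have h4 : 0 < η ^ 2 := by positivity
          have h5 : C / η ^ 2 < K := by
            have : 0 < ε ^ 2 + Y ^ 2 * ε ^ 2 + 1 := by positivity
            linarith
          calc C = η ^ 2 * (C / η ^ 2) := h3
            _ < η ^ 2 * K := mul_lt_mul_of_pos_left h5 h4
  | succ h ih =>
    intro a s R T hne hT hwin hKR
    have hT1 : 1 ≤ T := le_trans (one_le_Sz a (h + 1) hne) hT
    have hεR : 0 < ε ^ R := pow_pos hε _
    have hεh : 1 ≤ ε ^ (h + 1) := one_le_pow₀ hb.h1.le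
    have hKK : K * T ^ 3 ≤ ε ^ R := by
      have h1 : 0 ≤ K * T ^ 3 := by positivity
      calc K * T ^ 3 = K * T ^ 3 * 1 := (mul_one _).symm
        _ ≤ K * T ^ 3 * ε ^ (h + 1) := mul_le_mul_of_nonneg_left hεh h1
        _ ≤ _ := hKR
    by_cases hU : Uc t a (h + 1) = 0
    · -- reduction
      have hR1 : 1 ≤ R := by
        by_contra hcon
        have hR0 : R = 0 := by omega
        rw [hR0, pow_zero] at hKK
        have h1 : 1 ≤ T ^ 3 := one_le_pow₀ hT1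
        have h2 : ε ^ 2 < K := by
          have : 0 ≤ C / η ^ 2 + Y ^ 2 * ε ^ 2 := by positivity
          linarith
        have h3 : 1 ≤ ε ^ 2 := one_le_pow₀ hb.h1.le
        nlinarith
      have hsmall : 2 * (T * B) * (1 - ε⁻¹)⁻¹ * ε⁻¹ ^ ((R - 1) / 2) < 1 := by
        apply lt_of_pow_lt_pow_left₀ 2 zero_le_one
        have h1 : (ε⁻¹ ^ ((R - 1) / 2)) ^ 2 ≤ ε ^ 2 * ε⁻¹ ^ R := by
          have h1 : ε⁻¹ ^ (2 * ((R - 1) / 2) + 2) ≤ ε⁻¹ ^ R :=
            pow_le_pow_of_le_one hr0.le hr1.le (by omega)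
          have h2 : ε ^ 2 * ε⁻¹ ^ (2 * ((R - 1) / 2) + 2) = (ε⁻¹ ^ ((R - 1) / 2)) ^ 2 := by
            calc ε ^ 2 * ε⁻¹ ^ (2 * ((R - 1) / 2) + 2)
                = (ε * ε⁻¹) ^ 2 * (ε⁻¹ ^ ((R - 1) / 2)) ^ 2 := by ring
              _ = _ := by rw [hm1, one_pow, one_mul]
          rw [← h2]
          exact mul_le_mul_of_nonneg_left h1 (by positivity)
        have h2 : K * T ^ 2 * ε⁻¹ ^ R ≤ 1 := by
          have h3 : T ^ 2 ≤ T ^ 3 := pow_le_pow_right₀ hT1 (by norm_num)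
          calc K * T ^ 2 * ε⁻¹ ^ R ≤ K * T ^ 3 * ε⁻¹ ^ R := by
                apply mul_le_mul_of_nonneg_right _ (pow_pos hr0 _).le
                exact mul_le_mul_of_nonneg_left h3 hK0.le
            _ ≤ ε ^ R * ε⁻¹ ^ R := mul_le_mul_of_nonneg_right hKK (pow_pos hr0 _).le
            _ = 1 := by rw [← mul_pow, hm1, one_pow]
        have h4 : Y ^ 2 * ε ^ 2 < K := by
          have : 0 ≤ C / η ^ 2 + ε ^ 2 := by positivity
          linarith
        have h5 : 0 < T ^ 2 * ε⁻¹ ^ R := mul_pos (by positivity) (pow_pos hr0 _)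
        calc (2 * (T * B) * (1 - ε⁻¹)⁻¹ * ε⁻¹ ^ ((R - 1) / 2)) ^ 2
            = Y ^ 2 * T ^ 2 * (ε⁻¹ ^ ((R - 1) / 2)) ^ 2 := by rw [hY]; ring
          _ ≤ Y ^ 2 * T ^ 2 * (ε ^ 2 * ε⁻¹ ^ R) := mul_le_mul_of_nonneg_left h1 (by positivity)
          _ = (Y ^ 2 * ε ^ 2) * (T ^ 2 * ε⁻¹ ^ R) := by ring
          _ < K * (T ^ 2 * ε⁻¹ ^ R) := mul_lt_mul_of_pos_right h4 h5
          _ = K * T ^ 2 * ε⁻¹ ^ R := by ring
          _ ≤ 1 := h2
          _ = 1 ^ 2 := by norm_num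
      have hw := Qt_window hb (ext d) B (ext_bdd d B hB) a (h + 1) hU T hT s R hR1
        (by
          intro m h1 h2
          exact hwin m h1 h2) hsmall
      obtain ⟨k, hk, hbk⟩ := Qt_ne t a (h + 1) hU hne
      have hbz : Qt t a (h + 1) (h + 1) = 0 := Qt_zero t a (h + 1) (h + 1) le_rfl
      have hS : Sz (Qt t a (h + 1)) h ≤ T := by
        have h1 := Sz_Qt t hb.ht a (h + 1) hU
        rw [Sz_succ _ h hbz] at h1
        linarith
      rw [Wi_succ _ h hbz] at hw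
      refine ih (Qt t a (h + 1)) s (R + 2) T ⟨k, by omega, hbk⟩ hS ?_ ?_
      · intro m h1 h2
        push_cast at h2 hw
        exact hw m (by omega) (by omega)
      · calc K * T ^ 3 * ε ^ h ≤ K * T ^ 3 * ε ^ (h + 1) := by
              apply mul_le_mul_of_nonneg_left _ (by positivity)
              exact pow_le_pow_right₀ hb.h1.le (by omega)
          _ ≤ ε ^ R := hKR
          _ ≤ ε ^ (R + 2) := pow_le_pow_right₀ hb.h1.le (by omega)
    · have hTR : ε ^ 2 * T < ε ^ (h + 1) * ε ^ R := by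
        have h1 : T ≤ T ^ 3 := le_self_pow₀ hT1 (by norm_num)
        have h3 : ε ^ 2 < K := by
          have : 0 ≤ C / η ^ 2 + Y ^ 2 * ε ^ 2 := by positivity
          linarith
        calc ε ^ 2 * T < K * T := mul_lt_mul_of_pos_right h3 (by linarith)
          _ ≤ K * T ^ 3 := mul_le_mul_of_nonneg_left h1 hK0.le
          _ ≤ ε ^ R := hKK
          _ ≤ ε ^ (h + 1) * ε ^ R := le_mul_of_one_le_left hεR.le hεh
      obtain ⟨q, hq, hL⟩ := hC a (h + 1) s R T hU hT (by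
        intro m h1 h2
        exact hwin m h1 h2) hTR
      refine ⟨q, hq, ?_⟩
      apply lt_of_pow_lt_pow_left₀ 2 hη.le
      refine lt_of_le_of_lt hL ?_
      have h1 : T ^ 3 * ε ^ (h + 1) * ε⁻¹ ^ R ≤ 1 / K := by
        rw [le_div_iff₀ hK0]
        calc T ^ 3 * ε ^ (h + 1) * ε⁻¹ ^ R * K = (K * T ^ 3 * ε ^ (h + 1)) * ε⁻¹ ^ R := by ring
          _ ≤ ε ^ R * ε⁻¹ ^ R := mul_le_mul_of_nonneg_right hKR (pow_pos hr0 _).le
          _ = 1 := by rw [← mul_pow, hm1, one_pow]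
      calc C * T ^ 3 * ε ^ (h + 1) * ε⁻¹ ^ R = C * (T ^ 3 * ε ^ (h + 1) * ε⁻¹ ^ R) := by ring
        _ ≤ C * (1 / K) := mul_le_mul_of_nonneg_left h1 hC0.le
        _ < η ^ 2 := by
            rw [mul_one_div, div_lt_iff₀ hK0]
            have h3 : C = η ^ 2 * (C / η ^ 2) := by field_simp
            have h4 : 0 < η ^ 2 := by positivity
            have h5 : C / η ^ 2 < K := by
              have : 0 < ε ^ 2 + Y ^ 2 * ε ^ 2 + 1 := by positivity
              linarith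
            calc C = η ^ 2 * (C / η ^ 2) := h3
              _ < η ^ 2 * K := mul_lt_mul_of_pos_left h5 h4

end base

end Pool.Q146.LR
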