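import Mathlib
import Pool.Agent.Q146.LR.Red

set_option autoImplicit false

/-!
Linear recurrences on windows: palindromic, antipalindromic and arbitrary ones.
-/

namespace Pool.Q146.LR

open Pool.H389R2.LC Finset

/-- the relation `∑ c_i d_{k+i} = 0` for `R` consecutive `k` from `s` on -/
def Rel (d : ℕ → ℤ) (s D R : ℕ) (c : ℕ → ℤ) : Prop :=
  ∀ j < R, ∑ i ∈ range (D + 1), c i * d (s + j + i) = 0

/-- the sum of the absolute values of the coefficients -/
def SA (c : ℕ → ℤ) (D : ℕ) : ℝ := ∑ i ∈ range (D + 1), |(c i : ℝ)|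

theorem SA_nonneg (c : ℕ → ℤ) (D : ℕ) : 0 ≤ SA c D := sum_nonneg (fun _ _ => abs_nonneg _)

theorem one_le_SA (c : ℕ → ℤ) (D : ℕ) (hne : ∃ i, i ≤ D ∧ c i ≠ 0) : 1 ≤ SA c D := by
  obtain ⟨k, hk, hak⟩ := hne
  have h1 : (1 : ℝ) ≤ |(c k : ℝ)| := by
    have : (1 : ℤ) ≤ |c k| := Int.one_le_abs hak
    exact_mod_cast this
  have h2 : |(c k : ℝ)| ≤ SA c D :=
    single_le_sum (f := fun k => |(c k : ℝ)|) (fun i _ => abs_nonneg _) (mem_range.mpr (by omega))
  linarith

theorem sum_center {M : Type*} [AddCommMonoid M] (G : ℕ → M) (h : ℕ) :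
    ∑ i ∈ range (2 * h + 1), G i = G h + ∑ k ∈ range h, (G (h + (k + 1)) + G (h - (k + 1))) := by
  rw [show 2 * h + 1 = h + (h + 1) by ring, sum_range_add, sum_range_succ', sum_add_distrib,
    ← sum_range_reflect]
  have : ∑ x ∈ range h, G (h - 1 - x) = ∑ x ∈ range h, G (h - (x + 1)) := by
    apply sum_congr rfl
    intro x _
    congr 1
    omega
  rw [this, add_zero]
  abel

section base
variable {t : ℤ} {ε : ℝ} (hb : Base t ε)
include hb

theorem pal_LC (α β : ℝ) (A0 B0 : ℤ) (c0 : ℕ) (hc0 : 0 < c0) (hα : (c0 : ℝ) * α = A0 + B0 * ε)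
    (d : ℕ → ℤ) (B : ℝ) (hB : ∀ k, |(d k : ℝ)| ≤ B)
    (hβ : β = ∑' k : ℕ, (d k : ℝ) * ε⁻¹ ^ k) (η : ℝ) (hη : 0 < η) :
    ∃ K : ℝ, 0 < K ∧ ∀ (h : ℕ) (c : ℕ → ℤ) (s R : ℕ) (T : ℝ), (∀ i ≤ 2 * h, c (2 * h - i) = c i) →
      (∃ i, i ≤ 2 * h ∧ c i ≠ 0) → SA c (2 * h) ≤ T → Rel d s (2 * h) R c →
      K * T ^ 3 * ε ^ h ≤ ε ^ R → ∃ q : ℕ, 0 < q ∧ L α β q < η := by
  obtain ⟨K, hK0, hK⟩ := sym_LC hb α β A0 B0 c0 hc0 hα d B hB hβ η hη
  refine ⟨K, hK0, ?_⟩
  intro h c s R T hsym hne hT hrel hKR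
  apply hK h (fun k => c (h + k)) s R T
  · obtain ⟨i, hi, hci⟩ := hne
    rcases Nat.lt_or_ge i h with h1 | h1
    · refine ⟨h - i, by omega, ?_⟩
      show c (h + (h - i)) ≠ 0
      rw [show h + (h - i) = 2 * h - i by omega, hsym i hi]
      exact hci
    · refine ⟨i - h, by omega, ?_⟩
      show c (h + (i - h)) ≠ 0
      rw [show h + (i - h) = i by omega]
      exact hci
  · refine le_trans (le_of_eq ?_) hT
    unfold SA Sz
    rw [sum_center, mul_sum]
    congr 1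
    apply sum_congr rfl
    intro k hk
    have hk' := mem_range.mp hk
    have := hsym (h + (k + 1)) (by omega)
    rw [show 2 * h - (h + (k + 1)) = h - (k + 1) by omega] at this
    rw [this]
    ring
  · intro m h1 h2
    obtain ⟨j, hj⟩ : ∃ j : ℕ, m = ((s + j + h : ℕ) : ℤ) := ⟨(m - s - h).toNat, by omega⟩
    have hjR : j < R := by omega
    have h3 := hrel j hjR
    rw [sum_center] at h3
    unfold Wi
    rw [← h3]
    congr 1
    · rw [hj, ext_nat]
      rfl
    · apply sum_congr rfl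
      intro k hk
      have hk' := mem_range.mp hk
      have h4 := hsym (h + (k + 1)) (by omega)
      rw [show 2 * h - (h + (k + 1)) = h - (k + 1) by omega] at h4
      rw [h4, hj, show ((s + j + h : ℕ) : ℤ) + (k + 1) = ((s + j + (h + (k + 1)) : ℕ) : ℤ) by
        push_cast; ring, show ((s + j + h : ℕ) : ℤ) - (k + 1) = ((s + j + (h - (k + 1)) : ℕ) : ℤ) by
        omega, ext_nat, ext_nat]
      ring
  · exact hKR

end base

/-- multiplication by `x^r + σ` -/
def mulc (c : ℕ → ℤ) (D r : ℕ) (σ : ℤ) (i : ℕ) : ℤ :=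
  (if r ≤ i ∧ i ≤ D + r then c (i - r) else 0) + σ * (if i ≤ D then c i else 0)

theorem sum_mulc {M : Type*} [CommRing M] (φ : ℤ → M) (hφ0 : φ 0 = 0) (c : ℕ → ℤ) (D r : ℕ)
    (F : ℕ → M) :
    ∑ i ∈ range (D + r + 1), φ (if r ≤ i ∧ i ≤ D + r then c (i - r) else 0) * F i
      = ∑ i ∈ range (D + 1), φ (c i) * F (i + r) := by
  rw [show D + r + 1 = r + (D + 1) by ring, sum_range_add, sum_eq_zero, zero_add]
  · apply sum_congr rfl
    intro i hi
    have := mem_range.mp hi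
    rw [if_pos (by omega), show r + i - r = i by omega, show r + i = i + r by ring]
  · intro i hi
    have := mem_range.mp hi
    rw [if_neg (by omega), hφ0, zero_mul]

theorem sum_mulc' {M : Type*} [CommRing M] (φ : ℤ → M) (hφ0 : φ 0 = 0) (c : ℕ → ℤ) (D r : ℕ)
    (F : ℕ → M) :
    ∑ i ∈ range (D + r + 1), φ (if i ≤ D then c i else 0) * F i
      = ∑ i ∈ range (D + 1), φ (c i) * F i := by
  rw [show D + r + 1 = (D + 1) + r by ring, sum_range_add]
  have h1 : ∑ x ∈ range r, φ (if D + 1 + x ≤ D then c (D + 1 + x) else 0) * F (D + 1 + x) = 0 := by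
    apply sum_eq_zero
    intro i _
    rw [if_neg (by omega), hφ0, zero_mul]
  rw [h1, add_zero]
  apply sum_congr rfl
  intro i hi
  have := mem_range.mp hi
  rw [if_pos (by omega)]

section base
variable {t : ℤ} {ε : ℝ} (hb : Base t ε)
include hb

theorem sgn_LC (α β : ℝ) (A0 B0 : ℤ) (c0 : ℕ) (hc0 : 0 < c0) (hα : (c0 : ℝ) * α = A0 + B0 * ε)
    (d : ℕ → ℤ) (B : ℝ) (hB : ∀ k, |(d k : ℝ)| ≤ B)
    (hβ : β = ∑' k : ℕ, (d k : ℝ) * ε⁻¹ ^ k) (η : ℝ) (hη : 0 < η) :
    ∃ K : ℝ, 0 < K ∧ ∀ (D : ℕ) (σ : ℤ) (c : ℕ → ℤ) (s R : ℕ) (T : ℝ), (σ = 1 ∨ σ = -1) →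
      (∀ i ≤ D, c (D - i) = σ * c i) →
      (∃ i, i ≤ D ∧ c i ≠ 0) → SA c D ≤ T → Rel d s D R c →
      K * T ^ 6 * ε ^ D ≤ ε ^ (2 * R) → ∃ q : ℕ, 0 < q ∧ L α β q < η := by
  obtain ⟨K, hK0, hK⟩ := pal_LC hb α β A0 B0 c0 hc0 hα d B hB hβ η hη
  have hε := hb.pos
  refine ⟨(K * 8) ^ 2 * ε ^ 6 + ε ^ 6, by positivity, ?_⟩
  intro D σ c s R T hσ hsym hne hT hrel hKR
  have hT1 : 1 ≤ T := le_trans (one_le_SA c D hne) hT
  have hσσ : σ * σ = 1 := by rcases hσ with rfl | rfl <;> norm_num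
  have hσa : |(σ : ℝ)| = 1 := by rcases hσ with rfl | rfl <;> simp
  have hεD : 1 ≤ ε ^ D := one_le_pow₀ hb.h1.le
  have hT6 : 1 ≤ T ^ 6 := one_le_pow₀ hT1
  have hR3 : 3 ≤ R := by
    have h1 : ε ^ 6 ≤ ε ^ (2 * R) := by
      have h2 : ε ^ 6 ≤ ((K * 8) ^ 2 * ε ^ 6 + ε ^ 6) * T ^ 6 * ε ^ D := by
        have h3 : ε ^ 6 ≤ (K * 8) ^ 2 * ε ^ 6 + ε ^ 6 := by
          have : 0 ≤ (K * 8) ^ 2 * ε ^ 6 := by positivity
          linarith
        have h4 : 0 ≤ (K * 8) ^ 2 * ε ^ 6 + ε ^ 6 := by positivity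
        calc ε ^ 6 ≤ (K * 8) ^ 2 * ε ^ 6 + ε ^ 6 := h3
          _ ≤ ((K * 8) ^ 2 * ε ^ 6 + ε ^ 6) * T ^ 6 := le_mul_of_one_le_right h4 hT6
          _ ≤ ((K * 8) ^ 2 * ε ^ 6 + ε ^ 6) * T ^ 6 * ε ^ D :=
              le_mul_of_one_le_right (by positivity) hεD
      linarith
    have := (pow_le_pow_iff_right₀ hb.h1).mp h1
    omega
  obtain ⟨r, h, hr1, hr2, hrh⟩ : ∃ r h : ℕ, 1 ≤ r ∧ r ≤ 2 ∧ D + r = 2 * h := by
    rcases Nat.even_or_odd D with ⟨n, hn⟩ | ⟨n, hn⟩
    · exact ⟨2, n + 1, by omega, by omega, by omega⟩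
    · exact ⟨1, n + 1, by omega, by omega, by omega⟩
  apply hK h (mulc c D r σ) s (R - r) (2 * T)
  · -- symmetry
    intro i hi
    unfold mulc
    rw [← hrh] at hi ⊢
    have e1 : (if r ≤ D + r - i ∧ D + r - i ≤ D + r then c (D + r - i - r) else 0)
        = σ * (if i ≤ D then c i else 0) := by
      by_cases h1 : i ≤ D
      · rw [if_pos (by omega), if_pos h1, show D + r - i - r = D - i by omega, hsym i h1]
      · rw [if_neg (by omega), if_neg h1, mul_zero]
    have e2 : σ * (if D + r - i ≤ D then c (D + r - i) else 0)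
        = (if r ≤ i ∧ i ≤ D + r then c (i - r) else 0) := by
      by_cases h1 : r ≤ i
      · rw [if_pos (by omega), if_pos (by omega), show D + r - i = D - (i - r) by omega,
          hsym (i - r) (by omega), ← mul_assoc, hσσ, one_mul]
      · rw [if_neg (by omega), if_neg (by omega), mul_zero]
    rw [e1, e2]
    ring
  · -- not zero
    classical
    obtain ⟨i0, hi0, hci0⟩ := hne
    have hfin : ((range (D + 1)).filter (fun i => c i ≠ 0)).Nonempty :=
      ⟨i0, by simp [hi0, hci0, Nat.lt_succ_iff]⟩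
    set i1 := ((range (D + 1)).filter (fun i => c i ≠ 0)).max' hfin with hi1
    have hmem := max'_mem _ hfin
    rw [← hi1, mem_filter, mem_range] at hmem
    have hmax : ∀ i, i ≤ D → c i ≠ 0 → i ≤ i1 := by
      intro i h1 h2
      exact le_max' _ i (by rw [mem_filter, mem_range]; exact ⟨by omega, h2⟩)
    refine ⟨i1 + r, by omega, ?_⟩
    unfold mulc
    rw [if_pos (by omega), show i1 + r - r = i1 by omega]
    by_cases h1 : i1 + r ≤ D
    · have h2 : c (i1 + r) = 0 := by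
        by_contra hcon
        have := hmax (i1 + r) h1 hcon
        omega
      rw [if_pos h1, h2, mul_zero, add_zero]
      exact hmem.2
    · rw [if_neg h1, mul_zero, add_zero]
      exact hmem.2
  · -- size
    rw [← hrh]
    unfold SA
    have h1 : ∀ i ∈ range (D + r + 1), |(mulc c D r σ i : ℝ)|
        ≤ |((if r ≤ i ∧ i ≤ D + r then c (i - r) else 0 : ℤ) : ℝ)| * 1
          + |((if i ≤ D then c i else 0 : ℤ) : ℝ)| * 1 := by
      intro i _
      unfold mulc
      rw [Int.cast_add, Int.cast_mul]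
      refine le_trans (abs_add_le _ _) ?_
      rw [abs_mul, hσa]
      linarith
    refine le_trans (sum_le_sum h1) ?_
    rw [sum_add_distrib, sum_mulc (fun z : ℤ => |(z : ℝ)|) (by simp) c D r (fun _ => 1),
      sum_mulc' (fun z : ℤ => |(z : ℝ)|) (by simp) c D r (fun _ => 1)]
    unfold SA at hT
    simp only [mul_one]
    linarith
  · -- relation
    intro j hj
    rw [← hrh]
    have h1 : ∀ i, mulc c D r σ i * d (s + j + i)
        = (if r ≤ i ∧ i ≤ D + r then c (i - r) else 0) * d (s + j + i)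
          + σ * ((if i ≤ D then c i else 0) * d (s + j + i)) := by
      intro i
      unfold mulc
      ring
    rw [sum_congr rfl (fun i _ => h1 i), sum_add_distrib, ← mul_sum]
    have h2 : ∑ i ∈ range (D + r + 1), (if r ≤ i ∧ i ≤ D + r then c (i - r) else 0) * d (s + j + i)
        = ∑ i ∈ range (D + 1), c i * d (s + j + (i + r)) :=
      sum_mulc (fun z : ℤ => z) rfl c D r (fun i => d (s + j + i))
    have h3 : ∑ i ∈ range (D + r + 1), (if i ≤ D then c i else 0) * d (s + j + i)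
        = ∑ i ∈ range (D + 1), c i * d (s + j + i) :=
      sum_mulc' (fun z : ℤ => z) rfl c D r (fun i => d (s + j + i))
    rw [h2, h3, hrel j (by omega), mul_zero, add_zero, ← hrel (j + r) (by omega)]
    apply sum_congr rfl
    intro i _
    rw [show s + j + (i + r) = s + (j + r) + i by ring]
  · -- size of the window
    apply (pow_le_pow_iff_left₀ (by positivity) (pow_pos hε _).le two_ne_zero).mp
    have h1 : ε ^ (2 * R) = (ε ^ (R - r)) ^ 2 * ε ^ (2 * r) := by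
      rw [← pow_mul, ← pow_add]
      congr 1
      omega
    have h2 : (K * (2 * T) ^ 3 * ε ^ h) ^ 2 * ε ^ (2 * r) ≤ (ε ^ (R - r)) ^ 2 * ε ^ (2 * r) := by
      rw [← h1]
      refine le_trans ?_ hKR
      have h3 : (K * (2 * T) ^ 3 * ε ^ h) ^ 2 * ε ^ (2 * r)
          = (K * 8) ^ 2 * ε ^ (3 * r) * T ^ 6 * ε ^ D := by
        have : ε ^ (3 * r) * ε ^ D = (ε ^ h) ^ 2 * ε ^ (2 * r) := by
          rw [← pow_mul, ← pow_add, ← pow_add]
          congr 1
          omega
        calc (K * (2 * T) ^ 3 * ε ^ h) ^ 2 * ε ^ (2 * r)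
            = (K * 8) ^ 2 * T ^ 6 * ((ε ^ h) ^ 2 * ε ^ (2 * r)) := by ring
          _ = (K * 8) ^ 2 * T ^ 6 * (ε ^ (3 * r) * ε ^ D) := by rw [this]
          _ = _ := by ring
      rw [h3]
      have h4 : ε ^ (3 * r) ≤ ε ^ 6 := pow_le_pow_right₀ hb.h1.le (by omega)
      have h5 : (K * 8) ^ 2 * ε ^ (3 * r) ≤ (K * 8) ^ 2 * ε ^ 6 + ε ^ 6 := by
        have h6 : (K * 8) ^ 2 * ε ^ (3 * r) ≤ (K * 8) ^ 2 * ε ^ 6 :=
          mul_le_mul_of_nonneg_left h4 (by positivity)
        have : 0 < ε ^ 6 := by positivity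
        linarith
      apply mul_le_mul_of_nonneg_right _ (by positivity)
      exact mul_le_mul_of_nonneg_right h5 (by positivity)
    exact le_of_mul_le_mul_right h2 (pow_pos hε _)

/-- arbitrary recurrences -/
theorem any_LC (α β : ℝ) (A0 B0 : ℤ) (c0 : ℕ) (hc0 : 0 < c0) (hα : (c0 : ℝ) * α = A0 + B0 * ε)
    (d : ℕ → ℤ) (B : ℝ) (hB : ∀ k, |(d k : ℝ)| ≤ B)
    (hβ : β = ∑' k : ℕ, (d k : ℝ) * ε⁻¹ ^ k) (η : ℝ) (hη : 0 < η) :
    ∃ K : ℝ, 0 < K ∧ ∀ (D : ℕ) (c : ℕ → ℤ) (s R : ℕ) (T : ℝ),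
      (∃ i, i ≤ D ∧ c i ≠ 0) → SA c D ≤ T → Rel d s D R c →
      K * T ^ 6 * ε ^ (2 * D) ≤ ε ^ R → ∃ q : ℕ, 0 < q ∧ L α β q < η := by
  classical
  obtain ⟨K, hK0, hK⟩ := sym_LC hb α β A0 B0 c0 hc0 hα d B hB hβ η hη
  have hε := hb.pos
  refine ⟨K * 8 + 1, by positivity, ?_⟩
  intro D c s R T hne hT hrel hKR
  have hT1 : 1 ≤ T := le_trans (one_le_SA c D hne) hT
  have hDR : 2 * D ≤ R := by
    have h1 : ε ^ (2 * D) ≤ ε ^ R := by
      refine le_trans ?_ hKR
      have h3 : 1 ≤ (K * 8 + 1) * T ^ 6 := by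
        have h4 : 1 ≤ T ^ 6 := one_le_pow₀ hT1
        have h5 : 1 ≤ K * 8 + 1 := by linarith
        nlinarith
      exact le_mul_of_one_le_left (pow_pos hε _).le h3
    exact (pow_le_pow_iff_right₀ hb.h1).mp h1
  -- autocorrelation
  set P : Finset (ℕ × ℕ) := range (D + 1) ×ˢ range (D + 1) with hP
  set g : ℕ × ℕ → ℕ := fun x => ((x.1 : ℤ) - x.2).natAbs with hg
  set w : ℕ → ℤ := fun k => ∑ x ∈ P with g x = k, c x.1 * c x.2 with hw
  set a : ℕ → ℤ := fun k => if k = 0 then 2 * w 0 else w k with ha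
  have hmaps : ∀ x ∈ P, g x ∈ range (D + 1) := by
    intro x hx
    rw [hP, mem_product, mem_range, mem_range] at hx
    rw [mem_range]
    show ((x.1 : ℤ) - x.2).natAbs < D + 1
    omega
  apply hK D a s (R - D) (2 * T ^ 2)
  · refine ⟨0, Nat.zero_le _, ?_⟩
    have h1 : w 0 = ∑ i ∈ range (D + 1), c i * c i := by
      show ∑ x ∈ P with g x = 0, c x.1 * c x.2 = _
      rw [sum_filter, hP, sum_product]
      apply sum_congr rfl
      intro i hi
      rw [sum_eq_single i]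
      · rw [if_pos (by show ((i : ℤ) - i).natAbs = 0; omega)]
      · intro j _ hji
        rw [if_neg]
        show ¬ ((i : ℤ) - j).natAbs = 0
        omega
      · intro h
        exact absurd hi h
    obtain ⟨i, hi, hci⟩ := hne
    have h2 : 0 < w 0 := by
      rw [h1]
      refine sum_pos' (fun i _ => mul_self_nonneg _) ⟨i, mem_range.mpr (by omega), ?_⟩
      exact mul_self_pos.mpr hci
    show (if (0 : ℕ) = 0 then 2 * w 0 else w 0) ≠ 0
    rw [if_pos rfl]
    omega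
  · -- size
    have h1 : Sz a D = 2 * ∑ k ∈ range (D + 1), |(w k : ℝ)| := by
      unfold Sz
      rw [sum_range_succ']
      have : ∀ k ∈ range D, |(a (k + 1) : ℝ)| = |(w (k + 1) : ℝ)| := by
        intro k _
        show |((if k + 1 = 0 then 2 * w 0 else w (k + 1) : ℤ) : ℝ)| = _
        rw [if_neg (by omega)]
      rw [sum_congr rfl this]
      have h0 : (a 0 : ℝ) = 2 * (w 0 : ℝ) := by
        show ((if (0 : ℕ) = 0 then 2 * w 0 else w 0 : ℤ) : ℝ) = _
        rw [if_pos rfl]; push_cast; rfl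
      rw [h0, abs_mul, abs_of_pos (by norm_num : (0 : ℝ) < 2)]
      ring
    rw [h1]
    have h2 : ∑ k ∈ range (D + 1), |(w k : ℝ)| ≤ ∑ x ∈ P, |(c x.1 : ℝ)| * |(c x.2 : ℝ)| := by
      rw [← sum_fiberwise_of_maps_to hmaps]
      apply sum_le_sum
      intro k _
      show |((∑ x ∈ P with g x = k, c x.1 * c x.2 : ℤ) : ℝ)| ≤ _
      push_cast
      refine le_trans (abs_sum_le_sum_abs _ _) (le_of_eq ?_)
      apply sum_congr rfl
      intro x _
      rw [abs_mul]
    have h3 : ∑ x ∈ P, |(c x.1 : ℝ)| * |(c x.2 : ℝ)| = SA c D ^ 2 := by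
      rw [hP, sum_product, sq]
      unfold SA
      rw [sum_mul_sum]
    have h4 : SA c D ^ 2 ≤ T ^ 2 := pow_le_pow_left₀ (SA_nonneg c D) hT 2
    linarith
  · -- relation
    intro m hm1 hm2
    have hpair : ∀ (f : ℤ → ℤ) (x : ℕ × ℕ), f (m + (g x : ℤ)) + f (m - (g x : ℤ))
        = f (m + (x.1 - x.2)) + f (m - (x.1 - x.2)) := by
      intro f x
      show f (m + (((x.1 : ℤ) - x.2).natAbs : ℤ)) + f (m - (((x.1 : ℤ) - x.2).natAbs : ℤ)) = _
      rcases le_total 0 ((x.1 : ℤ) - x.2) with h1 | h1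
      · rw [show (((x.1 : ℤ) - x.2).natAbs : ℤ) = x.1 - x.2 by omega]
      · rw [show (((x.1 : ℤ) - x.2).natAbs : ℤ) = -(x.1 - x.2) by omega, sub_neg_eq_add,
          ← sub_eq_add_neg, add_comm]
    have h1 : Wi a D (ext d) m = ∑ k ∈ range (D + 1), w k * (ext d (m + k) + ext d (m - k)) := by
      unfold Wi
      rw [sum_range_succ']
      have : ∀ k ∈ range D, a (k + 1) * (ext d (m + (k + 1)) + ext d (m - (k + 1)))
          = w (k + 1) * (ext d (m + ((k + 1 : ℕ) : ℤ)) + ext d (m - ((k + 1 : ℕ) : ℤ))) := by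
        intro k _
        show (if k + 1 = 0 then 2 * w 0 else w (k + 1)) * _ = _
        rw [if_neg (by omega)]
        push_cast
        rfl
      rw [sum_congr rfl this]
      have h0 : a 0 = 2 * w 0 := by
        show (if (0 : ℕ) = 0 then 2 * w 0 else w 0) = _
        rw [if_pos rfl]
      rw [h0]
      simp only [Nat.cast_zero, add_zero, sub_zero]
      ring
    have h2 : Wi a D (ext d) m = ∑ x ∈ P, c x.1 * c x.2 *
        (ext d (m + (x.1 - x.2)) + ext d (m - (x.1 - x.2))) := by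
      rw [h1, ← sum_fiberwise_of_maps_to hmaps]
      apply sum_congr rfl
      intro k _
      show (∑ x ∈ P with g x = k, c x.1 * c x.2) * _ = _
      rw [sum_mul]
      apply sum_congr rfl
      intro x hx
      rw [mem_filter] at hx
      rw [← hpair (ext d) x, hx.2]
    have hvan : ∀ j : ℕ, j ≤ D → ∑ i ∈ range (D + 1), c i * ext d (m + (i - j)) = 0 := by
      intro j hj
      obtain ⟨n, hn⟩ : ∃ n : ℕ, m - j = ((s + n : ℕ) : ℤ) := ⟨(m - j - s).toNat, by omega⟩
      rw [← hrel n (by omega)]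
      apply sum_congr rfl
      intro i _
      rw [show m + ((i : ℤ) - j) = ((s + n + i : ℕ) : ℤ) by push_cast; push_cast at hn; omega,
        ext_nat]
    have h3 : ∑ x ∈ P, c x.1 * c x.2 * ext d (m + (x.1 - x.2)) = 0 := by
      rw [hP, sum_product_right]
      apply sum_eq_zero
      intro j hj
      have h4 := hvan j (by have := mem_range.mp hj; omega)
      have : ∑ x ∈ range (D + 1), c x * c j * ext d (m + (x - j))
          = c j * ∑ i ∈ range (D + 1), c i * ext d (m + (i - j)) := by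
        rw [mul_sum]
        apply sum_congr rfl
        intro i _
        ring
      rw [this, h4, mul_zero]
    have h3' : ∑ x ∈ P, c x.1 * c x.2 * ext d (m - (x.1 - x.2)) = 0 := by
      rw [hP, sum_product]
      apply sum_eq_zero
      intro j hj
      have h4 := hvan j (by have := mem_range.mp hj; omega)
      have : ∑ x ∈ range (D + 1), c j * c x * ext d (m - (j - x))
          = c j * ∑ i ∈ range (D + 1), c i * ext d (m + (i - j)) := by
        rw [mul_sum]
        apply sum_congr rfl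
        intro i _
        rw [show m - ((j : ℤ) - i) = m + (i - j) by ring]
        ring
      rw [this, h4, mul_zero]
    rw [h2]
    have : ∀ x ∈ P, c x.1 * c x.2 * (ext d (m + (x.1 - x.2)) + ext d (m - (x.1 - x.2)))
        = c x.1 * c x.2 * ext d (m + (x.1 - x.2)) + c x.1 * c x.2 * ext d (m - (x.1 - x.2)) := by
      intro x _
      ring
    rw [sum_congr rfl this, sum_add_distrib, h3, h3', add_zero]
  · have h1 : ε ^ R = ε ^ (R - D) * ε ^ D := by
      rw [← pow_add]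
      congr 1
      omega
    have h2 : (K * (2 * T ^ 2) ^ 3 * ε ^ D) * ε ^ D ≤ ε ^ (R - D) * ε ^ D := by
      rw [← h1]
      refine le_trans ?_ hKR
      have h3 : (K * (2 * T ^ 2) ^ 3 * ε ^ D) * ε ^ D = K * 8 * T ^ 6 * ε ^ (2 * D) := by ring
      rw [h3]
      apply mul_le_mul_of_nonneg_right _ (by positivity)
      apply mul_le_mul_of_nonneg_right _ (by positivity)
      linarith
    exact le_of_mul_le_mul_right h2 (pow_pos hε _)

end base

end Pool.Q146.LR
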