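import Mathlib

set_option autoImplicit false

/-!
An integer matrix whose rank is at most a fixed proportion `< 1` of the number of its columns has
a small integer vector in its kernel.
-/

namespace Pool.Q146.LR

open Finset

attribute [local instance] Matrix.seminormedAddCommGroup

theorem small_kernel (m n : ℕ) (A : Matrix (Fin m) (Fin n) ℤ) (M : ℕ) (hM1 : 1 ≤ M)
    (hM : ∀ i j, |A i j| ≤ M) (N : ℕ) (hn : 0 < n)
    (hr : (N + 1) * (A.map (Int.cast : ℤ → ℚ)).rank ≤ N * n) :
    ∃ x : Fin n → ℤ, (∃ i, x i ≠ 0) ∧ (∀ i, ∑ j, A i j * x j = 0) ∧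
      ∀ j, |(x j : ℝ)| ≤ ((n : ℝ) * M) ^ N := by
  classical
  set v : Fin m → (Fin n → ℚ) := (A.map (Int.cast : ℤ → ℚ)).row with hv
  obtain ⟨κ, f, hf, hspan, hli⟩ := exists_linearIndependent' ℚ v
  have hfin : Finite κ := Finite.of_injective f hf
  have : Fintype κ := Fintype.ofFinite κ
  have hcard : Fintype.card κ = (A.map (Int.cast : ℤ → ℚ)).rank := by
    rw [Matrix.rank_eq_finrank_span_row, ← hv, ← hspan, finrank_span_eq_card hli]
  rw [← hcard] at hr
  set k := Fintype.card κ with hk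
  have hkn : k < n := by
    by_contra hcon
    push Not at hcon
    nlinarith
  have hnM : (1 : ℝ) ≤ (n : ℝ) * M := by
    have h1 : 1 ≤ n * M := Nat.mul_pos hn hM1
    exact_mod_cast h1
  -- enough to kill the chosen rows
  have hkill : ∀ x : Fin n → ℤ, (∀ y : κ, ∑ j, A (f y) j * x j = 0) →
      ∀ i, ∑ j, A i j * x j = 0 := by
    intro x hx i
    have h1 : v i ∈ Submodule.span ℚ (Set.range (v ∘ f)) := by
      rw [hspan]
      exact Submodule.subset_span ⟨i, rfl⟩
    have h2 : ∀ w ∈ Submodule.span ℚ (Set.range (v ∘ f)), ∑ j, w j * (x j : ℚ) = 0 := by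
      intro w hw
      induction hw using Submodule.span_induction with
      | mem w hw =>
        obtain ⟨y, rfl⟩ := hw
        have h3 := hx y
        have h4 : ((∑ j, A (f y) j * x j : ℤ) : ℚ) = 0 := by rw [h3]; simp
        push_cast at h4
        exact h4
      | zero => simp
      | add w1 w2 _ _ h3 h4 =>
        simp only [Pi.add_apply, add_mul, sum_add_distrib, h3, h4, add_zero]
      | smul c w _ h3 =>
        simp only [Pi.smul_apply, smul_eq_mul, mul_assoc, ← mul_sum, h3, mul_zero]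
    have h3 := h2 _ h1
    have h4 : ((∑ j, A i j * x j : ℤ) : ℚ) = 0 := by
      push_cast
      exact h3
    exact_mod_cast h4
  rcases Nat.eq_zero_or_pos k with hk0 | hk0
  · refine ⟨Pi.single ⟨0, hn⟩ 1, ⟨⟨0, hn⟩, by simp⟩, ?_, ?_⟩
    · apply hkill
      intro y
      have : IsEmpty κ := Fintype.card_eq_zero_iff.mp hk0
      exact (IsEmpty.false y).elim
    · intro j
      have h1 : |((Pi.single (⟨0, hn⟩ : Fin n) (1 : ℤ) : Fin n → ℤ) j : ℝ)| ≤ 1 := by
        rcases eq_or_ne j ⟨0, hn⟩ with h | h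
        · subst h; simp
        · rw [Pi.single_eq_of_ne h]; simp
      exact le_trans h1 (one_le_pow₀ hnM)
  · obtain ⟨x, hx0, hxA, hxn⟩ := Int.Matrix.exists_ne_zero_int_vec_norm_le
      (A.submatrix f id) (by rw [Fintype.card_fin]; exact hkn) hk0
    refine ⟨x, ?_, ?_, ?_⟩
    · by_contra hcon
      push Not at hcon
      exact hx0 (funext hcon)
    · apply hkill
      intro y
      have h1 := congrFun hxA y
      exact h1
    · intro j
      have h1 : |(x j : ℝ)| ≤ ‖x‖ := by
        have := norm_le_pi_norm x j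
        rwa [Int.norm_eq_abs] at this
      have h2 : ‖A.submatrix f id‖ ≤ M := by
        rw [Matrix.norm_le_iff (by positivity)]
        intro i l
        rw [Int.norm_eq_abs]
        have := hM (f i) l
        exact_mod_cast this
      refine le_trans h1 (le_trans hxn ?_)
      rw [Fintype.card_fin, ← hk]
      have h3 : (n : ℝ) * max 1 ‖A.submatrix f id‖ ≤ n * M := by
        apply mul_le_mul_of_nonneg_left _ (Nat.cast_nonneg n)
        exact max_le (by exact_mod_cast hM1) h2
      have hd : (0 : ℝ) < n - k := by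
        have : (k : ℝ) < n := by exact_mod_cast hkn
        linarith
      have h4 : (k : ℝ) / (n - k) ≤ N := by
        rw [div_le_iff₀ hd]
        have : ((N : ℝ) + 1) * k ≤ N * n := by exact_mod_cast hr
        linarith
      have h5 : (0 : ℝ) ≤ (k : ℝ) / (n - k) := div_nonneg (Nat.cast_nonneg _) hd.le
      calc ((n : ℝ) * max 1 ‖A.submatrix f id‖) ^ ((k : ℝ) / (n - k))
          ≤ ((n : ℝ) * M) ^ ((k : ℝ) / (n - k)) := by
            apply Real.rpow_le_rpow _ h3 h5
            positivity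
        _ ≤ ((n : ℝ) * M) ^ (N : ℝ) := Real.rpow_le_rpow_of_exponent_le hnM h4
        _ = ((n : ℝ) * M) ^ N := Real.rpow_natCast _ _

theorem growth (K ρ : ℝ) (hρ : 1 < ρ) (p : ℕ) : ∃ n0 : ℕ, ∀ n : ℕ, n0 ≤ n → K * (n : ℝ) ^ p ≤ ρ ^ n := by
  have h1 := (tendsto_pow_const_div_const_pow_of_one_lt p hρ).const_mul K
  rw [mul_zero] at h1
  have h2 := h1.eventually (gt_mem_nhds (zero_lt_one))
  rw [Filter.eventually_atTop] at h2
  obtain ⟨n0, hn0⟩ := h2
  refine ⟨n0, fun n hn => ?_⟩
  have h3 := hn0 n hn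
  have h4 : 0 < ρ ^ n := pow_pos (by linarith) n
  have h5 : K * ((n : ℝ) ^ p / ρ ^ n) = K * (n : ℝ) ^ p / ρ ^ n := by ring
  rw [h5, div_lt_one h4] at h3
  exact h3.le

end Pool.Q146.LR
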