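import Mathlib
import Pool.Agent.Q146.LR.Rec
import Pool.Agent.Q146.LR.Siegel

set_option autoImplicit false

/-!
Windows whose Hankel matrices have a deficient rank.
-/

namespace Pool.Q146.LR

open Pool.H389R2.LC Finset

/-- extension by zero of a finite vector -/
def xt {n : ℕ} (x : Fin n → ℤ) (i : ℕ) : ℤ := if h : i < n then x ⟨i, h⟩ else 0

theorem xt_fin {n : ℕ} (x : Fin n → ℤ) (i : Fin n) : xt x i = x i := by
  simp [xt]

theorem xt_abs {n : ℕ} (x : Fin n → ℤ) (C : ℝ) (hC : 0 ≤ C) (hx : ∀ j, |(x j : ℝ)| ≤ C) (i : ℕ) :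
    |(xt x i : ℝ)| ≤ C := by
  unfold xt
  by_cases h : i < n
  · rw [dif_pos h]; exact hx _
  · rw [dif_neg h]; simpa using hC

section base
variable {t : ℤ} {ε : ℝ} (hb : Base t ε)
include hb

theorem hankel_LC (α β : ℝ) (A0 B0 : ℤ) (c0 : ℕ) (hc0 : 0 < c0) (hα : (c0 : ℝ) * α = A0 + B0 * ε)
    (d : ℕ → ℤ) (B : ℝ) (hB : ∀ k, |(d k : ℝ)| ≤ B)
    (hβ : β = ∑' k : ℕ, (d k : ℝ) * ε⁻¹ ^ k) (δ : ℝ) (hδ : 0 < δ)
    (h : ∀ n0 : ℕ, ∃ n s R : ℕ, n0 ≤ n ∧ (2 + δ) * n ≤ R ∧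
      ((Matrix.of fun (j : Fin R) (i : Fin n) => (d (s + j + i) : ℚ)).rank : ℝ) ≤ (1 - δ) * n) :
    ∀ η : ℝ, 0 < η → ∃ q : ℕ, 0 < q ∧ L α β q < η := by
  intro η hη
  obtain ⟨K, hK0, hK⟩ := any_LC hb α β A0 B0 c0 hc0 hα d B hB hβ η hη
  have hε := hb.pos
  obtain ⟨N, hN⟩ := exists_nat_gt (1 / δ)
  obtain ⟨M, hM⟩ := exists_nat_ge (max 1 B)
  have hM1 : 1 ≤ M := by
    have : (1 : ℝ) ≤ M := le_trans (le_max_left _ _) hM
    exact_mod_cast this
  have hMB : B ≤ M := le_trans (le_max_right _ _) hM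
  have hρ : 1 < ε ^ δ := Real.one_lt_rpow hb.h1 hδ
  obtain ⟨n0, hn0⟩ := growth (K * (M : ℝ) ^ (6 * N)) (ε ^ δ) hρ (6 + 6 * N)
  obtain ⟨n, s, R, hn, hR, hrank⟩ := h (max n0 1)
  have hn1 : 0 < n := lt_of_lt_of_le one_pos (le_trans (le_max_right _ _) hn)
  have hnr : (0 : ℝ) < n := by exact_mod_cast hn1
  set A : Matrix (Fin R) (Fin n) ℤ := Matrix.of fun j i => d (s + j + i) with hA
  have hAm : A.map (Int.cast : ℤ → ℚ)
      = Matrix.of fun (j : Fin R) (i : Fin n) => (d (s + j + i) : ℚ) := by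
    ext j i
    rfl
  rw [← hAm] at hrank
  have hrN : (N + 1) * (A.map (Int.cast : ℤ → ℚ)).rank ≤ N * n := by
    have h1 : ((N : ℝ) + 1) * (A.map (Int.cast : ℤ → ℚ)).rank ≤ N * n := by
      have h2 : ((N : ℝ) + 1) * (A.map (Int.cast : ℤ → ℚ)).rank ≤ (N + 1) * ((1 - δ) * n) :=
        mul_le_mul_of_nonneg_left hrank (by positivity)
      have h3 : 1 < N * δ := by
        rw [div_lt_iff₀ hδ] at hN
        exact hN
      nlinarith
    exact_mod_cast h1
  obtain ⟨x, ⟨i0, hi0⟩, hx1, hx2⟩ := small_kernel R n A M hM1 (by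
    intro i j
    have h1 := hB (s + i + j)
    have h2 : |((A i j : ℤ) : ℝ)| ≤ M := le_trans h1 hMB
    exact_mod_cast h2) N hn1 hrN
  have hC0 : (0 : ℝ) ≤ ((n : ℝ) * M) ^ N := by positivity
  apply hK (n - 1) (xt x) s R (n * ((n : ℝ) * M) ^ N)
  · refine ⟨i0, by have := i0.isLt; omega, ?_⟩
    rw [xt_fin]
    exact hi0
  · unfold SA
    rw [show n - 1 + 1 = n by omega]
    calc ∑ i ∈ range n, |(xt x i : ℝ)| ≤ ∑ _i ∈ range n, ((n : ℝ) * M) ^ N :=
          sum_le_sum (fun i _ => xt_abs x _ hC0 hx2 i)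
      _ = _ := by rw [sum_const, card_range, nsmul_eq_mul]
  · intro j hj
    rw [show n - 1 + 1 = n by omega, sum_range]
    have h1 := hx1 ⟨j, hj⟩
    rw [← h1]
    apply sum_congr rfl
    intro i _
    rw [xt_fin, mul_comm]
    rfl
  · have h1 := hn0 n (le_trans (le_max_left _ _) hn)
    have h2 : K * ((n : ℝ) * ((n : ℝ) * M) ^ N) ^ 6 ≤ (ε ^ δ) ^ n := by
      calc K * ((n : ℝ) * ((n : ℝ) * M) ^ N) ^ 6 = K * (M : ℝ) ^ (6 * N) * (n : ℝ) ^ (6 + 6 * N) := by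
            ring
        _ ≤ _ := h1
    calc K * ((n : ℝ) * ((n : ℝ) * M) ^ N) ^ 6 * ε ^ (2 * (n - 1))
        ≤ (ε ^ δ) ^ n * ε ^ (2 * n) := by
          apply mul_le_mul h2 _ (by positivity) (by positivity)
          exact pow_le_pow_right₀ hb.h1.le (by omega)
      _ = ε ^ ((2 + δ) * n) := by
          rw [← Real.rpow_natCast (ε ^ δ), ← Real.rpow_mul hε.le, ← Real.rpow_natCast ε (2 * n),
            ← Real.rpow_add hε]
          congr 1
          push_cast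
          ring
      _ ≤ ε ^ (R : ℝ) := Real.rpow_le_rpow_of_exponent_le hb.h1.le hR
      _ = ε ^ R := Real.rpow_natCast _ _

theorem mirror_LC (α β : ℝ) (A0 B0 : ℤ) (c0 : ℕ) (hc0 : 0 < c0) (hα : (c0 : ℝ) * α = A0 + B0 * ε)
    (d : ℕ → ℤ) (B : ℝ) (hB : ∀ k, |(d k : ℝ)| ≤ B)
    (hβ : β = ∑' k : ℕ, (d k : ℝ) * ε⁻¹ ^ k) (δ : ℝ) (hδ : 0 < δ)
    (h : ∀ n0 : ℕ, ∃ n s R : ℕ, ∃ σ : ℤ, n0 ≤ n ∧ (σ = 1 ∨ σ = -1) ∧ (1 + δ) * n ≤ R ∧
      ((Matrix.of fun (j : Fin R) (i : Fin n) =>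
        ((d (s + j + n + i) + σ * d (s + j + (n - 1 - i)) : ℤ) : ℚ)).rank : ℝ) ≤ (1 - δ) * n) :
    ∀ η : ℝ, 0 < η → ∃ q : ℕ, 0 < q ∧ L α β q < η := by
  intro η hη
  obtain ⟨K, hK0, hK⟩ := sgn_LC hb α β A0 B0 c0 hc0 hα d B hB hβ η hη
  have hε := hb.pos
  obtain ⟨N, hN⟩ := exists_nat_gt (1 / δ)
  obtain ⟨M, hM⟩ := exists_nat_ge (max 1 (2 * B))
  have hM1 : 1 ≤ M := by
    have : (1 : ℝ) ≤ M := le_trans (le_max_left _ _) hM
    exact_mod_cast this
  have hMB : 2 * B ≤ M := le_trans (le_max_right _ _) hM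
  have hρ : 1 < ε ^ δ := Real.one_lt_rpow hb.h1 hδ
  obtain ⟨n0, hn0⟩ := growth (K * 64 * (M : ℝ) ^ (6 * N)) (ε ^ δ) hρ (6 + 6 * N)
  obtain ⟨n, s, R, σ, hn, hσ, hR, hrank⟩ := h (max n0 1)
  have hn1 : 0 < n := lt_of_lt_of_le one_pos (le_trans (le_max_right _ _) hn)
  have hnr : (0 : ℝ) < n := by exact_mod_cast hn1
  have hσσ : σ * σ = 1 := by rcases hσ with rfl | rfl <;> norm_num
  have hσa : |(σ : ℝ)| = 1 := by rcases hσ with rfl | rfl <;> simp
  set A : Matrix (Fin R) (Fin n) ℤ :=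
    Matrix.of fun j i => d (s + j + n + i) + σ * d (s + j + (n - 1 - i)) with hA
  have hAm : A.map (Int.cast : ℤ → ℚ) = Matrix.of fun (j : Fin R) (i : Fin n) =>
      ((d (s + j + n + i) + σ * d (s + j + (n - 1 - i)) : ℤ) : ℚ) := by
    ext j i
    rfl
  rw [← hAm] at hrank
  have hrN : (N + 1) * (A.map (Int.cast : ℤ → ℚ)).rank ≤ N * n := by
    have h1 : ((N : ℝ) + 1) * (A.map (Int.cast : ℤ → ℚ)).rank ≤ N * n := by
      have h2 : ((N : ℝ) + 1) * (A.map (Int.cast : ℤ → ℚ)).rank ≤ (N + 1) * ((1 - δ) * n) :=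
        mul_le_mul_of_nonneg_left hrank (by positivity)
      have h3 : 1 < N * δ := by
        rw [div_lt_iff₀ hδ] at hN
        exact hN
      nlinarith
    exact_mod_cast h1
  obtain ⟨x, ⟨i0, hi0⟩, hx1, hx2⟩ := small_kernel R n A M hM1 (by
    intro i j
    have h1 := hB (s + i + n + j)
    have h2 := hB (s + i + (n - 1 - j))
    have h3 : |((A i j : ℤ) : ℝ)| ≤ M := by
      show |((d (s + i + n + j) + σ * d (s + i + (n - 1 - j)) : ℤ) : ℝ)| ≤ M
      push_cast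
      refine le_trans (abs_add_le _ _) ?_
      rw [abs_mul, hσa]
      linarith
    exact_mod_cast h3) N hn1 hrN
  have hC0 : (0 : ℝ) ≤ ((n : ℝ) * M) ^ N := by positivity
  set c : ℕ → ℤ := fun k => if k < n then σ * xt x (n - 1 - k) else xt x (k - n) with hc
  have hsplit : ∀ F : ℕ → ℤ, ∑ k ∈ range (2 * n - 1 + 1), c k * F k
      = ∑ k ∈ range n, xt x k * (F (n + k) + σ * F (n - 1 - k)) := by
    intro F
    rw [show 2 * n - 1 + 1 = n + n by omega, sum_range_add, ← sum_range_reflect,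
      ← sum_add_distrib]
    apply sum_congr rfl
    intro k hk
    have hk' := mem_range.mp hk
    show (if n - 1 - k < n then σ * xt x (n - 1 - (n - 1 - k)) else xt x (n - 1 - k - n))
        * F (n - 1 - k) + (if n + k < n then σ * xt x (n - 1 - (n + k)) else xt x (n + k - n))
        * F (n + k) = _
    rw [if_pos (by omega), if_neg (by omega), show n - 1 - (n - 1 - k) = k by omega,
      show n + k - n = k by omega]
    ring
  apply hK (2 * n - 1) σ c s R (2 * n * ((n : ℝ) * M) ^ N) hσ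
  · intro i hi
    show (if 2 * n - 1 - i < n then σ * xt x (n - 1 - (2 * n - 1 - i)) else xt x (2 * n - 1 - i - n))
      = σ * (if i < n then σ * xt x (n - 1 - i) else xt x (i - n))
    by_cases h1 : i < n
    · rw [if_neg (by omega), if_pos h1, show 2 * n - 1 - i - n = n - 1 - i by omega, ← mul_assoc,
        hσσ, one_mul]
    · rw [if_pos (by omega), if_neg h1, show n - 1 - (2 * n - 1 - i) = i - n by omega]
  · refine ⟨n + i0, by have := i0.isLt; omega, ?_⟩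
    show (if n + (i0 : ℕ) < n then σ * xt x (n - 1 - (n + i0)) else xt x (n + i0 - n)) ≠ 0
    rw [if_neg (by omega), show n + (i0 : ℕ) - n = i0 by omega, xt_fin]
    exact hi0
  · unfold SA
    have h1 : ∀ k, |(c k : ℝ)| ≤ ((n : ℝ) * M) ^ N := by
      intro k
      show |((if k < n then σ * xt x (n - 1 - k) else xt x (k - n) : ℤ) : ℝ)| ≤ _
      by_cases h1 : k < n
      · rw [if_pos h1, Int.cast_mul, abs_mul, hσa, one_mul]
        exact xt_abs x _ hC0 hx2 _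
      · rw [if_neg h1]
        exact xt_abs x _ hC0 hx2 _
    calc ∑ i ∈ range (2 * n - 1 + 1), |(c i : ℝ)| ≤ ∑ _i ∈ range (2 * n - 1 + 1), ((n : ℝ) * M) ^ N :=
          sum_le_sum (fun i _ => h1 i)
      _ = _ := by
          rw [sum_const, card_range, nsmul_eq_mul, show 2 * n - 1 + 1 = 2 * n by omega]
          push_cast
          ring
  · intro j hj
    rw [hsplit (fun i => d (s + j + i)), sum_range]
    have h1 := hx1 ⟨j, hj⟩
    rw [← h1]
    apply sum_congr rfl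
    intro i _
    rw [xt_fin, mul_comm]
    show (d (s + j + (n + i)) + σ * d (s + j + (n - 1 - i))) * x i
      = (d (s + j + n + i) + σ * d (s + j + (n - 1 - i))) * x i
    rw [show s + j + (n + (i : ℕ)) = s + j + n + i by ring]
  · have h1 := hn0 n (le_trans (le_max_left _ _) hn)
    have h2 : K * (2 * (n : ℝ) * ((n : ℝ) * M) ^ N) ^ 6 ≤ (ε ^ δ) ^ n := by
      calc K * (2 * (n : ℝ) * ((n : ℝ) * M) ^ N) ^ 6
          = K * 64 * (M : ℝ) ^ (6 * N) * (n : ℝ) ^ (6 + 6 * N) := by ring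
        _ ≤ _ := h1
    calc K * (2 * (n : ℝ) * ((n : ℝ) * M) ^ N) ^ 6 * ε ^ (2 * n - 1)
        ≤ (ε ^ δ) ^ n * ε ^ (2 * n) := by
          apply mul_le_mul h2 _ (by positivity) (by positivity)
          exact pow_le_pow_right₀ hb.h1.le (by omega)
      _ = ε ^ ((2 + δ) * n) := by
          rw [← Real.rpow_natCast (ε ^ δ), ← Real.rpow_mul hε.le, ← Real.rpow_natCast ε (2 * n),
            ← Real.rpow_add hε]
          congr 1
          push_cast
          ring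
      _ ≤ ε ^ ((2 * R : ℕ) : ℝ) := by
          apply Real.rpow_le_rpow_of_exponent_le hb.h1.le
          push_cast
          have : 0 ≤ δ * n := by positivity
          linarith
      _ = ε ^ (2 * R) := Real.rpow_natCast _ _

end base

end Pool.Q146.LR
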