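import Mathlib
import Pool.Agent.Q146.LR.Rec

set_option autoImplicit false

/-!
Windows that are sums of few periodic or antiperiodic sequences.
-/

namespace Pool.Q146.LR

open Pool.H389R2.LC Finset

theorem mulc_sym (c : ℕ → ℤ) (D p : ℕ) (τ τ' : ℤ) (hτ : τ * τ = 1)
    (hsym : ∀ i ≤ D, c (D - i) = τ' * c i) :
    ∀ i ≤ D + p, mulc c D p τ (D + p - i) = (τ * τ') * mulc c D p τ i := by
  intro i hi
  unfold mulc
  have e1 : (if p ≤ D + p - i ∧ D + p - i ≤ D + p then c (D + p - i - p) else 0)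
      = τ' * (if i ≤ D then c i else 0) := by
    by_cases h1 : i ≤ D
    · rw [if_pos (by omega), if_pos h1, show D + p - i - p = D - i by omega, hsym i h1]
    · rw [if_neg (by omega), if_neg h1, mul_zero]
  have e2 : (if D + p - i ≤ D then c (D + p - i) else 0)
      = τ' * (if p ≤ i ∧ i ≤ D + p then c (i - p) else 0) := by
    by_cases h1 : p ≤ i
    · rw [if_pos (by omega), if_pos (by omega), show D + p - i = D - (i - p) by omega,
        hsym (i - p) (by omega)]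
    · rw [if_neg (by omega), if_neg (by omega), mul_zero]
  rw [e1, e2]
  linear_combination (-(τ' * (if i ≤ D then c i else 0))) * hτ

theorem mulc_sum (c : ℕ → ℤ) (D p : ℕ) (τ : ℤ) (F : ℕ → ℤ) :
    ∑ i ∈ range (D + p + 1), mulc c D p τ i * F i
      = ∑ i ∈ range (D + 1), c i * F (i + p) + τ * ∑ i ∈ range (D + 1), c i * F i := by
  have h1 : ∀ i, mulc c D p τ i * F i
      = (if p ≤ i ∧ i ≤ D + p then c (i - p) else 0) * F i
        + τ * ((if i ≤ D then c i else 0) * F i) := by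
    intro i
    unfold mulc
    ring
  rw [sum_congr rfl (fun i _ => h1 i), sum_add_distrib, ← mul_sum]
  have h2 : ∑ i ∈ range (D + p + 1), (if p ≤ i ∧ i ≤ D + p then c (i - p) else 0) * F i
      = ∑ i ∈ range (D + 1), c i * F (i + p) :=
    sum_mulc (fun z : ℤ => z) rfl c D p F
  have h3 : ∑ i ∈ range (D + p + 1), (if i ≤ D then c i else 0) * F i
      = ∑ i ∈ range (D + 1), c i * F i :=
    sum_mulc' (fun z : ℤ => z) rfl c D p F
  rw [h2, h3]

theorem mulc_SA (c : ℕ → ℤ) (D p : ℕ) (τ : ℤ) (hτ : τ = 1 ∨ τ = -1) :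
    SA (mulc c D p τ) (D + p) ≤ 2 * SA c D := by
  have hσa : |(τ : ℝ)| = 1 := by rcases hτ with rfl | rfl <;> simp
  unfold SA
  have h1 : ∀ i ∈ range (D + p + 1), |(mulc c D p τ i : ℝ)|
      ≤ |((if p ≤ i ∧ i ≤ D + p then c (i - p) else 0 : ℤ) : ℝ)| * 1
        + |((if i ≤ D then c i else 0 : ℤ) : ℝ)| * 1 := by
    intro i _
    unfold mulc
    rw [Int.cast_add, Int.cast_mul]
    refine le_trans (abs_add_le _ _) ?_
    rw [abs_mul, hσa]
    linarith
  refine le_trans (sum_le_sum h1) ?_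
  rw [sum_add_distrib, sum_mulc (fun z : ℤ => |(z : ℝ)|) (by simp) c D p (fun _ => 1),
    sum_mulc' (fun z : ℤ => |(z : ℝ)|) (by simp) c D p (fun _ => 1)]
  simp only [mul_one]
  linarith

/-- the product of the `x^{p_i} - σ_i` -/
theorem prod_rel (s N : ℕ) : ∀ (r : ℕ) (p : Fin r → ℕ) (σ : Fin r → ℤ) (e : Fin r → ℕ → ℤ),
    (∀ i, 0 < p i ∧ (σ i = 1 ∨ σ i = -1)) →
    (∀ i k, s ≤ k → k + p i < s + N → e i (k + p i) = σ i * e i k) →
    ∃ (c : ℕ → ℤ) (τ : ℤ), (τ = 1 ∨ τ = -1) ∧ c (∑ i, p i) = 1 ∧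
      (∀ i ≤ ∑ i, p i, c (∑ i, p i - i) = τ * c i) ∧ SA c (∑ i, p i) ≤ 2 ^ r ∧
      ∀ i j, j + ∑ i, p i < N → ∑ k ∈ range (∑ i, p i + 1), c k * e i (s + j + k) = 0 := by
  intro r
  induction r with
  | zero =>
    intro p σ e _ _
    refine ⟨fun _ => 1, 1, Or.inl rfl, rfl, ?_, ?_, ?_⟩
    · intro i _; simp
    · simp [SA]
    · intro i; exact i.elim0
  | succ r ih =>
    intro p σ e hp he
    obtain ⟨c, τ, hτ, hc1, hsym, hSA, hrel⟩ := ih (fun i => p i.castSucc) (fun i => σ i.castSucc)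
      (fun i => e i.castSucc) (fun i => hp _) (fun i => he _)
    set D := ∑ i : Fin r, p i.castSucc with hD
    have hsum : ∑ i, p i = D + p (Fin.last r) := Fin.sum_univ_castSucc p
    obtain ⟨hpl, hσl⟩ := hp (Fin.last r)
    set q := p (Fin.last r) with hq
    set ρ := σ (Fin.last r) with hρ
    have hρρ : (-ρ) * (-ρ) = 1 := by rcases hσl with h | h <;> rw [h] <;> norm_num
    have hρ' : -ρ = 1 ∨ -ρ = -1 := by rcases hσl with h | h <;> rw [h] <;> simp
    rw [hsum]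
    refine ⟨mulc c D q (-ρ), -ρ * τ, ?_, ?_, mulc_sym c D q (-ρ) τ hρρ hsym, ?_, ?_⟩
    · rcases hρ' with h | h <;> rcases hτ with h' | h' <;> rw [h, h'] <;> simp
    · unfold mulc
      rw [if_pos (by omega), if_neg (by omega), show D + q - q = D by omega, hc1]
      ring
    · refine le_trans (mulc_SA c D q (-ρ) hρ') ?_
      rw [pow_succ]
      linarith
    · intro i j hj
      rw [mulc_sum]
      refine Fin.lastCases ?_ (fun i => ?_) i
      · -- the last sequence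
        rw [mul_sum, ← sum_add_distrib]
        apply sum_eq_zero
        intro k hk
        have hk' := mem_range.mp hk
        have h1 := he (Fin.last r) (s + j + k) (by omega) (by rw [← hq]; omega)
        rw [← hq, ← hρ] at h1
        rw [show s + j + (k + q) = s + j + k + q by ring, h1]
        ring
      · have h1 := hrel i j (by omega)
        have h2 := hrel i (j + q) (by omega)
        rw [h1, mul_zero, add_zero, ← h2]
        apply sum_congr rfl
        intro k _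
        rw [show s + j + (k + q) = s + (j + q) + k by ring]

section base
variable {t : ℤ} {ε : ℝ} (hb : Base t ε)
include hb

theorem eps5 : (64 : ℝ) ≤ ε ^ 5 := by
  have h1 := hb.add
  have h2 := hb.two_lt
  have h3 : (3 : ℝ) ≤ t := by exact_mod_cast hb.ht
  have h4 : ε⁻¹ < 2⁻¹ := by
    apply inv_strictAnti₀ (by norm_num) h2
  have h5 : (5 / 2 : ℝ) < ε := by
    have : (2 : ℝ)⁻¹ = 1 / 2 := by norm_num
    linarith
  have h6 : (5 / 2 : ℝ) ^ 5 ≤ ε ^ 5 := pow_le_pow_left₀ (by norm_num) h5.le 5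
  have h7 : (64 : ℝ) ≤ (5 / 2) ^ 5 := by norm_num
  linarith

theorem sum_LC (α β : ℝ) (A0 B0 : ℤ) (c0 : ℕ) (hc0 : 0 < c0) (hα : (c0 : ℝ) * α = A0 + B0 * ε)
    (d : ℕ → ℤ) (B : ℝ) (hB : ∀ k, |(d k : ℝ)| ≤ B)
    (hβ : β = ∑' k : ℕ, (d k : ℝ) * ε⁻¹ ^ k)
    (h : ∀ K : ℕ, ∃ (r s N : ℕ) (p : Fin r → ℕ) (σ : Fin r → ℤ) (e : Fin r → ℕ → ℤ),
      (∀ i, 0 < p i ∧ (σ i = 1 ∨ σ i = -1)) ∧
      (∀ i k, s ≤ k → k + p i < s + N → e i (k + p i) = σ i * e i k) ∧
      (∀ k, s ≤ k → k < s + N → d k = ∑ i, e i k) ∧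
      3 * ∑ i, p i + 5 * r + K ≤ 2 * N) :
    ∀ η : ℝ, 0 < η → ∃ q : ℕ, 0 < q ∧ L α β q < η := by
  intro η hη
  obtain ⟨K0, hK0, hK⟩ := sgn_LC hb α β A0 B0 c0 hc0 hα d B hB hβ η hη
  have hε := hb.pos
  obtain ⟨K, hKe⟩ := pow_unbounded_of_one_lt K0 hb.h1
  obtain ⟨r, s, N, p, σ, e, hp, he, hd, hN⟩ := h K
  obtain ⟨c, τ, hτ, hc1, hsym, hSA, hrel⟩ := prod_rel s N r p σ e hp he
  set D := ∑ i, p i with hD
  apply hK D τ c s (N - D) (2 ^ r) hτ hsym ⟨D, le_rfl, by rw [hc1]; norm_num⟩ hSA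
  · intro j hj
    have h1 : ∀ k ∈ range (D + 1), c k * d (s + j + k) = ∑ i, c k * e i (s + j + k) := by
      intro k hk
      have hk' := mem_range.mp hk
      rw [hd (s + j + k) (by omega) (by omega), mul_sum]
    rw [sum_congr rfl h1, sum_comm]
    apply sum_eq_zero
    intro i _
    exact hrel i j (by omega)
  · have h1 : ((2 : ℝ) ^ r) ^ 6 ≤ ε ^ (5 * r) := by
      calc ((2 : ℝ) ^ r) ^ 6 = 64 ^ r := by
            rw [← pow_mul, mul_comm, pow_mul]; norm_num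
        _ ≤ (ε ^ 5) ^ r := pow_le_pow_left₀ (by norm_num) (eps5 hb) r
        _ = _ := by rw [← pow_mul]
    calc K0 * (2 ^ r) ^ 6 * ε ^ D ≤ ε ^ K * ε ^ (5 * r) * ε ^ D := by
          apply mul_le_mul_of_nonneg_right _ (pow_pos hε _).le
          exact mul_le_mul hKe.le h1 (by positivity) (pow_pos hε _).le
      _ = ε ^ (K + 5 * r + D) := by rw [← pow_add, ← pow_add]
      _ ≤ ε ^ (2 * (N - D)) := pow_le_pow_right₀ hb.h1.le (by omega)

end base

end Pool.Q146.LR
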